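import Mathlib

/-!
# Finitely presented special inverse monoids: definitions

Words over an alphabet `A` with formal inverses are lists over `A ⊕ A`: `Sum.inl x` is the letter
`x` and `Sum.inr x` is the formal inverse of `x`.
-/

namespace Q25.IM

variable {A : Type}

/-- The formal inverse of a word: reverse the word and invert all letters. -/
def inv (u : List (A ⊕ A)) : List (A ⊕ A) := (u.map Sum.swap).reverse

/-- The congruence on the free monoid over `A ⊕ A` generated by Wagner's relations
`u u⁻¹ u = u`, `u u⁻¹ v v⁻¹ = v v⁻¹ u u⁻¹` and the relations `w = 1`, `w ∈ R`.  Its quotient is the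
special inverse monoid `Inv⟨A ∣ w = 1 (w ∈ R)⟩`. -/
def cong (R : List (List (A ⊕ A))) : Con (FreeMonoid (A ⊕ A)) :=
  conGen fun a b =>
    (∃ u : List (A ⊕ A), a = FreeMonoid.ofList (u ++ inv u ++ u) ∧ b = FreeMonoid.ofList u) ∨
    (∃ u v : List (A ⊕ A), a = FreeMonoid.ofList (u ++ inv u ++ (v ++ inv v)) ∧
      b = FreeMonoid.ofList (v ++ inv v ++ (u ++ inv u))) ∨
    (∃ w ∈ R, a = FreeMonoid.ofList w ∧ b = 1)

/-- The special inverse monoid `Inv⟨A ∣ w = 1 (w ∈ R)⟩`. -/
abbrev InvMon (R : List (List (A ⊕ A))) : Type := (cong R).Quotient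

/-- The element of the inverse monoid represented by a word. -/
def val (R : List (List (A ⊕ A))) (u : List (A ⊕ A)) : InvMon R :=
  ((FreeMonoid.ofList u : FreeMonoid (A ⊕ A)) : (cong R).Quotient)

/-- The natural partial order of an inverse monoid: `a ≤ b` iff `a = e b` for an idempotent `e`. -/
def NatLe {M : Type} [Monoid M] (a b : M) : Prop := ∃ e : M, e * e = e ∧ a = e * b

/-- A monoid is `E`-unitary if every element above an idempotent is idempotent. -/
def EUnitary (M : Type) [Monoid M] : Prop :=
  ∀ e s : M, e * e = e → NatLe e s → s * s = s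

/-- The group element represented by a word, in the free group over `A`. -/
def toFree (u : List (A ⊕ A)) : FreeGroup A :=
  (u.map (Sum.elim FreeGroup.of fun x => (FreeGroup.of x)⁻¹)).prod

/-- The group `Gp⟨A ∣ w = 1 (w ∈ R)⟩`, the maximal group image of `Inv⟨A ∣ w = 1 (w ∈ R)⟩`. -/
abbrev GroupImage (R : List (List (A ⊕ A))) : Type :=
  PresentedGroup {g : FreeGroup A | ∃ w ∈ R, g = toFree w}

/-- The element of the maximal group image represented by a word. -/
def gval (R : List (List (A ⊕ A))) (u : List (A ⊕ A)) : GroupImage R :=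
  QuotientGroup.mk (toFree u)

/-- The prefix monoid: the image in the maximal group image of the right units, that is, of the
elements `s` of the inverse monoid with `s s' = 1` for some `s'`. -/
def prefixMonoid (R : List (List (A ⊕ A))) : Set (GroupImage R) :=
  {g | ∃ u : List (A ⊕ A), (∃ s' : InvMon R, val R u * s' = 1) ∧ gval R u = g}

/-- A subset `P` of a group (here always a submonoid) is right reversible: `a P ∩ b P` is nonempty
for all `a, b ∈ P`. -/
def RightReversible {G : Type} [Group G] (P : Set G) : Prop :=
  ∀ a ∈ P, ∀ b ∈ P, ∃ p ∈ P, ∃ q ∈ P, a * p = b * q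

end Q25.IM
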