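import Mathlib
import Pool.Agent.Q25.IM.Defs

/-!
# Algebra of special inverse monoids with a central element
-/

namespace Q25.IM

variable {A : Type} {R : List (List (A ⊕ A))}

lemma inv_nil : inv ([] : List (A ⊕ A)) = [] := rfl

lemma inv_append (u v : List (A ⊕ A)) : inv (u ++ v) = inv v ++ inv u := by simp [inv]

lemma inv_cons (x : A ⊕ A) (u : List (A ⊕ A)) : inv (x :: u) = inv u ++ [x.swap] := by simp [inv]

lemma inv_inv (u : List (A ⊕ A)) : inv (inv u) = u := by
  simp [inv, List.map_reverse]

lemma val_nil : val R [] = 1 := rfl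

lemma val_append (u v : List (A ⊕ A)) : val R (u ++ v) = val R u * val R v := rfl

lemma val_cons (x : A ⊕ A) (u : List (A ⊕ A)) : val R (x :: u) = val R [x] * val R u := rfl

lemma exists_word (m : InvMon R) : ∃ u, val R u = m := by
  induction m using Con.induction_on with
  | H u => exact ⟨FreeMonoid.toList u, rfl⟩

lemma val_eq_iff {u v : List (A ⊕ A)} :
    val R u = val R v ↔ cong R (FreeMonoid.ofList u) (FreeMonoid.ofList v) := Con.eq _

lemma reg (u : List (A ⊕ A)) : val R u * val R (inv u) * val R u = val R u := by
  rw [← val_append, ← val_append]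
  exact (Con.eq _).2 (ConGen.Rel.of _ _ (Or.inl ⟨u, rfl, rfl⟩))

lemma comm (u v : List (A ⊕ A)) :
    val R u * val R (inv u) * (val R v * val R (inv v)) =
      val R v * val R (inv v) * (val R u * val R (inv u)) := by
  rw [← val_append, ← val_append, ← val_append, ← val_append]
  exact (Con.eq _).2 (ConGen.Rel.of _ _ (Or.inr (Or.inl ⟨u, v, rfl, rfl⟩)))

lemma rel_val {w : List (A ⊕ A)} (hw : w ∈ R) : val R w = 1 :=
  (Con.eq _).2 (ConGen.Rel.of _ _ (Or.inr (Or.inr ⟨w, hw, rfl, rfl⟩)))

lemma reg' (u : List (A ⊕ A)) :
    val R (inv u) * val R u * val R (inv u) = val R (inv u) := by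
  have := reg (R := R) (inv u)
  rwa [inv_inv] at this

/-- Right units. -/
def RU (m : InvMon R) : Prop := ∃ m', m * m' = 1

lemma RU.mul {a b : InvMon R} (ha : RU a) (hb : RU b) : RU (a * b) := by
  obtain ⟨a', ha⟩ := ha
  obtain ⟨b', hb⟩ := hb
  exact ⟨b' * a', by rw [mul_assoc, ← mul_assoc b, hb, one_mul, ha]⟩

lemma RU_one : RU (1 : InvMon R) := ⟨1, one_mul 1⟩

lemma RU_iff (u : List (A ⊕ A)) : RU (val R u) ↔ val R u * val R (inv u) = 1 := by
  constructor
  · rintro ⟨m', h⟩
    calc val R u * val R (inv u) = val R u * val R (inv u) * (val R u * m') := by rw [h, mul_one]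
      _ = val R u * val R (inv u) * val R u * m' := by rw [← mul_assoc]
      _ = 1 := by rw [reg, h]
  · intro h
    exact ⟨_, h⟩

/-- An idempotent is equal to `e e⁻¹`. -/
lemma idem_eq {u : List (A ⊕ A)} (h : val R u * val R u = val R u) :
    val R u * val R (inv u) = val R u := by
  set e := val R u with he
  set f := val R (inv u) with hf
  have h1 : e * f * e = e := reg u
  have h2 : f * e * f = f := reg' u
  have h3 : f * e * (e * f) = e * f * (f * e) := by
    have := comm (R := R) (inv u) u
    rwa [inv_inv] at this
  have h4 : f = e * f * (f * e) := by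
    calc f = f * e * f := h2.symm
      _ = f * (e * e) * f := by rw [h]
      _ = f * e * (e * f) := by simp only [mul_assoc]
      _ = e * f * (f * e) := h3
  have h5 : e * f = f := by
    calc e * f = e * (e * f * (f * e)) := by rw [← h4]
      _ = e * e * f * (f * e) := by simp only [mul_assoc]
      _ = e * f * (f * e) := by rw [h]
      _ = f := h4.symm
  have h6 : f * e = f := by
    calc f * e = e * f * (f * e) * e := by rw [← h4]
      _ = e * f * (f * (e * e)) := by simp only [mul_assoc]
      _ = e * f * (f * e) := by rw [h]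
      _ = f := h4.symm
  have h7 : e = f := by
    calc e = e * f * e := h1.symm
      _ = f * e := by rw [h5]
      _ = f := h6
  rw [← h7]
  exact h

lemma idem_comm {a b : InvMon R} (ha : a * a = a) (hb : b * b = b) : a * b = b * a := by
  obtain ⟨u, rfl⟩ := exists_word a
  obtain ⟨v, rfl⟩ := exists_word b
  rw [← idem_eq ha, ← idem_eq hb]
  exact comm u v

/-- Hypotheses on the special inverse monoid: all generators are right units, `t` is central among
the generators, and each generator is a right divisor of a power of `t` by a positive word. -/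
structure Good (R : List (List (A ⊕ A))) (t : A) : Prop where
  ru : ∀ x : A, val R [Sum.inl x] * val R [Sum.inr x] = 1
  cent : ∀ x : A, val R [Sum.inl t] * val R [Sum.inl x] = val R [Sum.inl x] * val R [Sum.inl t]
  div : ∀ x : A, ∃ (p : List A) (j : ℕ),
    val R (p.map Sum.inl) * val R [Sum.inl x] = val R [Sum.inl t] ^ j

section

variable {t : A} (hR : Good R t)

include hR

/-- An element commuting with the generators slides past every element, up to an idempotent. -/
lemma slide {Z : InvMon R} (hZ : ∀ x : A, Z * val R [Sum.inl x] = val R [Sum.inl x] * Z)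
    (u : List (A ⊕ A)) : val R u * Z = val R u * val R (inv u) * (Z * val R u) := by
  induction u with
  | nil => rw [inv_nil, val_nil, one_mul, one_mul, mul_one, one_mul]
  | cons y v ih =>
    -- the statement for the first letter
    have hy : val R [y] * Z = val R [y] * val R (inv [y]) * (Z * val R [y]) := by
      rcases y with x | x
      · have : inv [Sum.inl x] = [Sum.inr x] := rfl
        rw [this, hR.ru, one_mul, hZ]
      · have : inv [Sum.inr x] = [Sum.inl x] := rfl
        rw [this]
        calc val R [Sum.inr x] * Z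
            = val R [Sum.inr x] * Z * (val R [Sum.inl x] * val R [Sum.inr x]) := by
              rw [hR.ru, mul_one]
          _ = val R [Sum.inr x] * (Z * val R [Sum.inl x]) * val R [Sum.inr x] := by
              simp only [mul_assoc]
          _ = val R [Sum.inr x] * (val R [Sum.inl x] * Z) * val R [Sum.inr x] := by rw [hZ]
          _ = val R [Sum.inr x] * val R [Sum.inl x] * (Z * val R [Sum.inr x]) := by
              simp only [mul_assoc]
    set a := val R [y] with ha
    set a' := val R (inv [y]) with ha'
    set b := val R v with hb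
    set b' := val R (inv v) with hb'
    have h1 : val R (y :: v) = a * b := rfl
    have h2 : val R (inv (y :: v)) = b' * a' := by
      rw [inv_cons, val_append]; rfl
    have h3 : a * a' * a = a := reg [y]
    have h4 : a' * a * (b * b') = b * b' * (a' * a) := by
      have := comm (R := R) (inv [y]) v
      rwa [inv_inv] at this
    rw [h1, h2]
    -- `a (b b') = (a b b' a') a`
    have h5 : a * (b * b') = a * (b * b') * a' * a := by
      calc a * (b * b') = a * a' * a * (b * b') := by rw [h3]
        _ = a * (a' * a * (b * b')) := by simp only [mul_assoc]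
        _ = a * (b * b' * (a' * a)) := by rw [h4]
        _ = a * (b * b') * a' * a := by simp only [mul_assoc]
    calc a * b * Z = a * (b * Z) := mul_assoc _ _ _
      _ = a * (b * b' * (Z * b)) := by rw [ih]
      _ = a * (b * b') * Z * b := by simp only [mul_assoc]
      _ = a * (b * b') * a' * a * Z * b := by rw [← h5]
      _ = a * (b * b') * a' * (a * Z) * b := by simp only [mul_assoc]
      _ = a * (b * b') * a' * (a * a' * (Z * a)) * b := by rw [hy]
      _ = a * (b * b') * a' * a * a' * Z * a * b := by simp only [mul_assoc]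
      _ = a * (b * b') * a' * Z * a * b := by rw [← h5]
      _ = a * b * (b' * a') * (Z * (a * b)) := by simp only [mul_assoc]

/-- An element commuting with the generators commutes with all right units. -/
lemma comm_ru {Z : InvMon R} (hZ : ∀ x : A, Z * val R [Sum.inl x] = val R [Sum.inl x] * Z)
    {m : InvMon R} (hm : RU m) : m * Z = Z * m := by
  obtain ⟨u, rfl⟩ := exists_word m
  rw [slide hR hZ u, (RU_iff u).1 hm, one_mul]

lemma pow_comm (n : ℕ) (x : A) :
    val R [Sum.inl t] ^ n * val R [Sum.inl x] = val R [Sum.inl x] * val R [Sum.inl t] ^ n := by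
  induction n with
  | zero => rw [pow_zero, one_mul, mul_one]
  | succ n ih => rw [pow_succ, mul_assoc, hR.cent, ← mul_assoc, ih, mul_assoc]

lemma RU_pos (p : List A) : RU (val R (p.map Sum.inl)) := by
  induction p with
  | nil => exact RU_one
  | cons x p ih =>
    have : val R ((x :: p).map Sum.inl) = val R [Sum.inl x] * val R (p.map Sum.inl) := rfl
    rw [this]
    exact RU.mul ⟨_, hR.ru x⟩ ih

lemma RU_pow (n : ℕ) : RU (val R [Sum.inl t] ^ n) := by
  induction n with
  | zero => rw [pow_zero]; exact RU_one
  | succ n ih => rw [pow_succ]; exact ih.mul ⟨_, hR.ru t⟩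

/-- High above any element there is a right unit. -/
lemma exists_ru (u : List (A ⊕ A)) : ∃ N : ℕ, RU (val R [Sum.inl t] ^ N * val R u) := by
  induction u with
  | nil => exact ⟨0, by rw [pow_zero, one_mul]; exact RU_one⟩
  | cons y v ih =>
    obtain ⟨N, hN⟩ := ih
    rw [val_cons y v]
    rcases y with x | x
    · refine ⟨N, ?_⟩
      rw [← mul_assoc, pow_comm hR, mul_assoc]
      exact RU.mul ⟨_, hR.ru x⟩ hN
    · obtain ⟨p, j, hp⟩ := hR.div x
      refine ⟨N + j, ?_⟩
      have h1 : val R [Sum.inl t] ^ j * val R [Sum.inr x] = val R (p.map Sum.inl) := by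
        rw [← hp, mul_assoc, hR.ru, mul_one]
      have h2 : val R [Sum.inl t] ^ N * val R (p.map Sum.inl) =
          val R (p.map Sum.inl) * val R [Sum.inl t] ^ N :=
        (comm_ru hR (pow_comm hR N) (RU_pos hR p)).symm
      rw [pow_add, mul_assoc, ← mul_assoc _ (val R [Sum.inr x]), h1, ← mul_assoc, h2, mul_assoc]
      exact (RU_pos hR p).mul hN

lemma exists_ru_le (u : List (A ⊕ A)) :
    ∃ N : ℕ, ∀ n ≥ N, RU (val R [Sum.inl t] ^ n * val R u) := by
  obtain ⟨N, hN⟩ := exists_ru hR u
  refine ⟨N, fun n hn => ?_⟩
  obtain ⟨k, rfl⟩ := Nat.exists_eq_add_of_le' hn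
  rw [pow_add, mul_assoc]
  exact (RU_pow hR k).mul hN

/-- Idempotents are absorbed by high powers of `t`. -/
lemma absorb {e : InvMon R} (he : e * e = e) :
    ∃ N : ℕ, ∀ n ≥ N, val R [Sum.inl t] ^ n * e = val R [Sum.inl t] ^ n := by
  obtain ⟨u, rfl⟩ := exists_word e
  obtain ⟨N, hN⟩ := exists_ru_le hR u
  refine ⟨N, fun n hn => ?_⟩
  obtain ⟨v, hv⟩ := exists_word (val R [Sum.inl t] ^ n)
  have h1 := hN n hn
  rw [← hv] at h1 ⊢
  rw [← val_append, RU_iff, inv_append, val_append, val_append, mul_assoc, ← mul_assoc (val R u),
    idem_eq he] at h1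
  -- `h1 : V * (e * V') = 1`
  have h2 : val R v * val R (inv v) = 1 := by
    rw [← RU_iff, hv]
    exact RU_pow hR n
  have h3 : val R (inv v) * val R v * (val R (inv v) * val R v) = val R (inv v) * val R v := by
    rw [← mul_assoc, reg']
  calc val R v * val R u = val R v * val R (inv v) * val R v * val R u := by rw [h2, one_mul]
    _ = val R v * (val R (inv v) * val R v * val R u) := by simp only [mul_assoc]
    _ = val R v * (val R u * (val R (inv v) * val R v)) := by rw [idem_comm h3 he]
    _ = val R v * (val R u * val R (inv v)) * val R v := by simp only [mul_assoc]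
    _ = val R v := by rw [h1, one_mul]

/-- The monoid is `E`-unitary. -/
theorem eUnitary : EUnitary (InvMon R) := by
  rintro e s he ⟨g, hg, hes⟩
  obtain ⟨N1, h1⟩ := absorb hR he
  obtain ⟨N2, h2⟩ := absorb hR hg
  set n := max N1 N2 with hn
  have h3 : val R [Sum.inl t] ^ n * s = val R [Sum.inl t] ^ n := by
    calc val R [Sum.inl t] ^ n * s = val R [Sum.inl t] ^ n * g * s := by
          rw [h2 n (le_max_right _ _)]
      _ = val R [Sum.inl t] ^ n * e := by rw [mul_assoc, ← hes]
      _ = val R [Sum.inl t] ^ n := h1 n (le_max_left _ _)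
  obtain ⟨u, rfl⟩ := exists_word s
  have h4 := slide hR (pow_comm hR n) u
  rw [h3] at h4
  obtain ⟨T', hT'⟩ := RU_pow hR n
  have h5 : val R u = val R u * val R (inv u) := by
    have := congrArg (· * T') h4
    simp only [mul_assoc] at this
    rw [hT', mul_one, mul_one] at this
    exact this
  have h6 : val R u * val R (inv u) * (val R u * val R (inv u)) = val R u * val R (inv u) := by
    rw [← mul_assoc, reg]
  rw [h5]
  exact h6

end

end Q25.IM
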