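import Mathlib

/-!
# Coding block systems into submonoids of `F × F`
-/

namespace Q25.IM

open Multiplicative

/-- The positive element of the free group given by a word. -/
def pos {α : Type} (L : List α) : FreeGroup α := (L.map FreeGroup.of).prod

lemma pos_nil {α : Type} : pos ([] : List α) = 1 := rfl

lemma pos_append {α : Type} (L L' : List α) : pos (L ++ L') = pos L * pos L' := by simp [pos]

lemma pos_cons {α : Type} (a : α) (L : List α) : pos (a :: L) = FreeGroup.of a * pos L := by
  simp [pos]

lemma pos_eq_mk {α : Type} (L : List α) : pos L = FreeGroup.mk (L.map fun a => (a, true)) := by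
  induction L with
  | nil => rfl
  | cons a L ih => rw [pos_cons, ih]; rfl

lemma pos_reduced {α : Type} (L : List α) : FreeGroup.IsReduced (L.map fun a => (a, true)) := by
  unfold FreeGroup.IsReduced
  rw [List.isChain_map]
  induction L with
  | nil => exact List.isChain_nil
  | cons a L ih =>
    cases L with
    | nil => exact List.isChain_singleton a
    | cons b L => exact List.isChain_cons_cons.2 ⟨fun _ => rfl, ih⟩

lemma pos_injective {α : Type} : Function.Injective (pos : List α → FreeGroup α) := by
  classical
  intro L L' h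
  rw [pos_eq_mk, pos_eq_mk] at h
  have h2 := FreeGroup.reduce.sound h
  rw [(pos_reduced L).reduce_eq, (pos_reduced L').reduce_eq] at h2
  exact List.map_injective_iff.2 (fun a b hab => (Prod.mk.inj hab).1) h2

/-- Level zero letters. -/
inductive Z (J : Type)
  | V (j : J)
  | U (j : J)
  | M

variable {S J : Type} (p q : J → List S) (k : S)

/-- The values of the level zero letters. -/
def zval : Z J → FreeGroup S × FreeGroup (Option J)
  | .V j => (pos (p j), FreeGroup.of (some j))
  | .U j => ((pos (q j))⁻¹, (FreeGroup.of none)⁻¹ * (FreeGroup.of (some j))⁻¹ * FreeGroup.of none)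
  | .M => (FreeGroup.of k, FreeGroup.of none)

/-- The value of a word of level zero letters. -/
def zprod (L : List (Z J)) : FreeGroup S × FreeGroup (Option J) := (L.map (zval p q k)).prod

lemma zprod_nil : zprod p q k ([] : List (Z J)) = 1 := rfl

lemma zprod_cons (z : Z J) (L : List (Z J)) :
    zprod p q k (z :: L) = zval p q k z * zprod p q k L := by simp [zprod]

lemma zprod_append (L L' : List (Z J)) :
    zprod p q k (L ++ L') = zprod p q k L * zprod p q k L' := by simp [zprod]

lemma zprod_V (js : List J) :
    zprod p q k (js.map Z.V) = (pos (js.flatMap p), pos (js.map some)) := by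
  induction js with
  | nil => rfl
  | cons j js ih =>
    rw [List.map_cons, zprod_cons, ih, List.flatMap_cons, pos_append, List.map_cons, pos_cons]
    rfl

lemma zprod_U (js : List J) :
    zprod p q k (js.reverse.map Z.U) = ((pos (js.flatMap q))⁻¹,
      (FreeGroup.of none)⁻¹ * (pos (js.map some))⁻¹ * FreeGroup.of none) := by
  induction js with
  | nil => simp [zprod_nil, pos_nil, Prod.ext_iff]
  | cons j js ih =>
    rw [List.reverse_cons, List.map_append, zprod_append, ih, List.flatMap_cons, pos_append,
      List.map_cons, List.map_cons, pos_cons, zprod_cons, List.map_nil, zprod_nil, mul_one]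
    simp only [zval, Prod.mk_mul_mk, Prod.mk.injEq, mul_inv_rev]
    refine ⟨trivial, ?_⟩
    group

/-- The exponent sum of the marker. -/
def mc : FreeGroup (Option J) →* Multiplicative ℤ :=
  FreeGroup.lift fun o => match o with
    | none => ofAdd 1
    | some _ => 1

/-- The exponent sum of the other letters. -/
def ab : FreeGroup (Option J) →* Multiplicative ℤ :=
  FreeGroup.lift fun o => match o with
    | none => 1
    | some _ => ofAdd 1

/-- An affine action. -/
noncomputable def aff : FreeGroup (Option J) →* Equiv.Perm ℚ :=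
  FreeGroup.lift fun o => match o with
    | none => Equiv.mulLeft₀ (2 : ℚ) two_ne_zero
    | some _ => Equiv.addRight (1 : ℚ)

/-- Number of letters `V`. -/
def nV : List (Z J) → ℕ
  | [] => 0
  | .V _ :: L => nV L + 1
  | .U _ :: L => nV L
  | .M :: L => nV L

/-- Number of letters `U`. -/
def nU : List (Z J) → ℕ
  | [] => 0
  | .V _ :: L => nU L
  | .U _ :: L => nU L + 1
  | .M :: L => nU L

/-- Number of letters `M`. -/
def nM : List (Z J) → ℕ
  | [] => 0
  | .V _ :: L => nM L
  | .U _ :: L => nM L
  | .M :: L => nM L + 1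

lemma mc_zprod (L : List (Z J)) : mc (zprod p q k L).2 = ofAdd (nM L : ℤ) := by
  induction L with
  | nil => rfl
  | cons z L ih =>
    rw [zprod_cons, Prod.snd_mul, map_mul, ih]
    cases z with
    | V j => simp [zval, mc, nM]
    | U j => simp [zval, mc, nM]
    | M => simp [zval, mc, nM, ← ofAdd_add, add_comm]

lemma ab_zprod (L : List (Z J)) : ab (zprod p q k L).2 = ofAdd ((nV L : ℤ) - nU L) := by
  induction L with
  | nil => rfl
  | cons z L ih =>
    rw [zprod_cons, Prod.snd_mul, map_mul, ih]
    cases z with
    | V j =>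
      simp only [zval, ab, nV, nU, FreeGroup.lift_apply_of, ← ofAdd_add]
      congr 1; push_cast; ring
    | U j =>
      simp only [zval, ab, nV, nU, map_mul, map_inv, FreeGroup.lift_apply_of, ← ofAdd_add,
        inv_one, one_mul, mul_one, ← ofAdd_neg]
      congr 1; push_cast; ring
    | M => simp [zval, ab, nV, nU]

lemma aff_zprod (L : List (Z J)) (hL : nM L = 0) (z : ℚ) :
    aff (zprod p q k L).2 z = z + nV L - nU L / 2 := by
  induction L with
  | nil => simp [zprod_nil, nV, nU]
  | cons y L ih =>
    rw [zprod_cons, Prod.snd_mul, map_mul]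
    cases y with
    | V j =>
      rw [Equiv.Perm.mul_apply, ih hL]
      simp only [zval, aff, nV, nU, FreeGroup.lift_apply_of, Equiv.coe_addRight]
      push_cast; ring
    | U j =>
      rw [Equiv.Perm.mul_apply, ih hL]
      simp only [zval, aff, nV, nU, map_mul, map_inv, FreeGroup.lift_apply_of,
        Equiv.Perm.mul_apply]
      have h1 : ∀ x : ℚ, (Equiv.addRight (1 : ℚ))⁻¹ x = x - 1 := fun x => by
        rw [Equiv.Perm.inv_eq_iff_eq]; simp
      have h2 : ∀ x : ℚ, (Equiv.mulLeft₀ (2 : ℚ) two_ne_zero)⁻¹ x = x / 2 := fun x => by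
        rw [Equiv.Perm.inv_eq_iff_eq]; simp [mul_div_cancel₀]
      rw [h1, h2]
      have h3 : ∀ x : ℚ, (Equiv.mulLeft₀ (2 : ℚ) two_ne_zero) x = 2 * x := fun x => rfl
      rw [h3]
      push_cast; ring
    | M => simp [nM] at hL

lemma split_M (L : List (Z J)) (hL : nM L = 1) :
    ∃ L1 L2, L = L1 ++ Z.M :: L2 ∧ nM L1 = 0 ∧ nM L2 = 0 := by
  induction L with
  | nil => simp [nM] at hL
  | cons y L ih =>
    cases y with
    | V j =>
      obtain ⟨L1, L2, rfl, h1, h2⟩ := ih hL
      exact ⟨Z.V j :: L1, L2, rfl, h1, h2⟩
    | U j =>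
      obtain ⟨L1, L2, rfl, h1, h2⟩ := ih hL
      exact ⟨Z.U j :: L1, L2, rfl, h1, h2⟩
    | M => exact ⟨[], L, rfl, rfl, by simpa [nM] using hL⟩

lemma all_V (L : List (Z J)) (hL : nM L = 0) (hU : nU L = 0) : ∃ js : List J, L = js.map Z.V := by
  induction L with
  | nil => exact ⟨[], rfl⟩
  | cons y L ih =>
    cases y with
    | V j =>
      obtain ⟨js, rfl⟩ := ih hL hU
      exact ⟨j :: js, rfl⟩
    | U j => simp [nU] at hU
    | M => simp [nM] at hL

lemma all_U (L : List (Z J)) (hL : nM L = 0) (hV : nV L = 0) : ∃ js : List J, L = js.map Z.U := by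
  induction L with
  | nil => exact ⟨[], rfl⟩
  | cons y L ih =>
    cases y with
    | V j => simp [nV] at hV
    | U j =>
      obtain ⟨js, rfl⟩ := ih hL hV
      exact ⟨j :: js, rfl⟩
    | M => simp [nM] at hL

/-- Membership in the submonoid generated by the level zero letters codes the block equation. -/
theorem code (w : List S) :
    (∃ L : List (Z J), zprod p q k L = (pos w, FreeGroup.of none)) ↔
      ∃ js : List J, js.flatMap p ++ [k] = w ++ js.flatMap q := by
  constructor
  · rintro ⟨L, hL⟩
    have h1 : nM L = 1 := by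
      have := mc_zprod p q k L
      rw [hL] at this
      simp only [mc, FreeGroup.lift_apply_of] at this
      have := ofAdd.injective this
      omega
    obtain ⟨L1, L2, rfl, h2, h3⟩ := split_M L h1
    rw [zprod_append, zprod_cons] at hL
    have hB : (zprod p q k L1).2 * (FreeGroup.of none * (zprod p q k L2).2) = FreeGroup.of none :=
      congrArg Prod.snd hL
    have h4 := congrArg ab hB
    rw [map_mul, map_mul, ab_zprod, ab_zprod] at h4
    simp only [ab, FreeGroup.lift_apply_of, one_mul, ← ofAdd_add] at h4
    have h4' : (nV L1 : ℤ) - nU L1 + (nV L2 - nU L2) = 0 := ofAdd.injective h4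
    have h5 := congrArg (fun g => aff g 0) hB
    simp only [map_mul, Equiv.Perm.mul_apply] at h5
    rw [aff_zprod p q k L2 h3, aff_zprod p q k L1 h2] at h5
    simp only [aff, FreeGroup.lift_apply_of] at h5
    have h3' : ∀ x : ℚ, (Equiv.mulLeft₀ (2 : ℚ) two_ne_zero) x = 2 * x := fun x => rfl
    rw [h3', h3'] at h5
    have h6 : (nV L1 : ℚ) - nU L1 + (nV L2 - nU L2) = 0 := by exact_mod_cast h4'
    have h7 : (nV L2 : ℚ) + nU L1 / 2 = 0 := by linarith
    have h8 : (0 : ℚ) ≤ nV L2 := Nat.cast_nonneg _
    have h9 : (0 : ℚ) ≤ nU L1 := Nat.cast_nonneg _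
    have h10 : (nV L2 : ℚ) = 0 := by linarith
    have h11 : (nU L1 : ℚ) = 0 := by linarith
    obtain ⟨js, rfl⟩ := all_V L1 h2 (by exact_mod_cast h11)
    obtain ⟨is, rfl⟩ := all_U L2 h3 (by exact_mod_cast h10)
    rw [← List.reverse_reverse is, zprod_V, zprod_U] at hL hB
    set ks := is.reverse with hks
    simp only at hB
    have h12 : pos (js.map some) = pos (ks.map some) := by
      have h13 : pos (js.map some) * (pos (ks.map some))⁻¹ * FreeGroup.of none =
          FreeGroup.of none := by
        refine Eq.trans ?_ hB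
        group
      exact mul_inv_eq_one.1 (mul_eq_right.1 h13)
    have h14 : js = ks :=
      List.map_injective_iff.2 (Option.some_injective J) (pos_injective h12)
    have hA : pos (js.flatMap p) * (FreeGroup.of k * (pos (ks.flatMap q))⁻¹) = pos w :=
      congrArg Prod.fst hL
    refine ⟨js, pos_injective ?_⟩
    rw [pos_append, pos_append, ← hA, ← h14, pos_cons, pos_nil]
    group
  · rintro ⟨js, h⟩
    refine ⟨js.map Z.V ++ Z.M :: js.reverse.map Z.U, ?_⟩
    have h1 := congrArg pos h
    rw [pos_append, pos_append, pos_cons, pos_nil, mul_one] at h1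
    rw [zprod_append, zprod_cons, zprod_V, zprod_U]
    simp only [zval, Prod.mk_mul_mk, Prod.mk.injEq]
    constructor
    · rw [← mul_assoc, h1, mul_inv_cancel_right]
    · group

end Q25.IM
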