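import Mathlib

/-!
# Computability of word problems of products of free groups

The primitive recursiveness of free reduction follows the argument of `Pool.Agent.H577R3.TaskWP`.
-/

namespace Q25.IM

/-- One step of free reduction. -/
def redStep {n : ℕ} (x : Fin n × Bool) (ih : List (Fin n × Bool)) : List (Fin n × Bool) :=
  List.casesOn ih [x] fun hd tl => if x.1 = hd.1 ∧ x.2 = not hd.2 then tl else x :: hd :: tl

theorem reduce_eq_foldr {n : ℕ} (l : List (Fin n × Bool)) :
    FreeGroup.reduce l = l.foldr (fun b s => redStep b s) [] := by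
  induction l with
  | nil => rfl
  | cons x l ih =>
    rw [List.foldr_cons, ← ih]
    rfl

theorem primrec_redStep (n : ℕ) : Primrec₂ (redStep (n := n)) := by
  unfold redStep
  refine Primrec.list_casesOn (f := fun p : (Fin n × Bool) × List (Fin n × Bool) => p.2)
    (g := fun p => [p.1])
    (h := fun (p : (Fin n × Bool) × List (Fin n × Bool))
        (q : (Fin n × Bool) × List (Fin n × Bool)) =>
      if p.1.1 = q.1.1 ∧ p.1.2 = not q.1.2 then q.2 else p.1 :: q.1 :: q.2) Primrec.snd ?_ ?_
  · exact Primrec.list_cons.comp Primrec.fst (Primrec.const [])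
  · refine Primrec.ite ?_ ?_ ?_
    · refine PrimrecPred.and ?_ ?_
      · exact Primrec.eq.comp (Primrec.fst.comp (Primrec.fst.comp Primrec.fst))
          (Primrec.fst.comp (Primrec.fst.comp Primrec.snd))
      · exact Primrec.eq.comp (Primrec.snd.comp (Primrec.fst.comp Primrec.fst))
          (Primrec.not.comp (Primrec.snd.comp (Primrec.fst.comp Primrec.snd)))
    · exact Primrec.snd.comp Primrec.snd
    · exact Primrec.list_cons.comp (Primrec.fst.comp Primrec.fst)
        (Primrec.list_cons.comp (Primrec.fst.comp Primrec.snd) (Primrec.snd.comp Primrec.snd))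

theorem primrec_reduce (n : ℕ) :
    Primrec (FreeGroup.reduce : List (Fin n × Bool) → List (Fin n × Bool)) := by
  refine (Primrec.list_foldr (f := fun l : List (Fin n × Bool) => l)
    (g := fun _ => ([] : List (Fin n × Bool)))
    (h := fun _ p => redStep p.1 p.2) Primrec.id (Primrec.const []) ?_).of_eq
      (fun l => (reduce_eq_foldr l).symm)
  exact (primrec_redStep n).comp (Primrec.fst.comp Primrec.snd) (Primrec.snd.comp Primrec.snd)

/-- Equality of the values of two words under a map to a free group is decidable. -/
theorem free_dec {N m : ℕ} (f : Fin N ⊕ Fin N → FreeGroup (Fin m)) :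
    PrimrecPred (fun uv : List (Fin N ⊕ Fin N) × List (Fin N ⊕ Fin N) =>
      (uv.1.map f).prod = (uv.2.map f).prod) := by
  classical
  have h1 : ∀ u : List (Fin N ⊕ Fin N),
      (u.map f).prod = FreeGroup.mk (u.flatMap fun x => (f x).toWord) := by
    intro u
    induction u with
    | nil => rfl
    | cons x u ih =>
      rw [List.map_cons, List.prod_cons, ih, List.flatMap_cons, ← FreeGroup.mul_mk,
        FreeGroup.mk_toWord]
  have h2 : Primrec (fun u : List (Fin N ⊕ Fin N) =>
      FreeGroup.reduce (u.flatMap fun x => (f x).toWord)) := by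
    refine (primrec_reduce m).comp (Primrec.list_flatMap Primrec.id ?_)
    exact (Primrec.dom_finite (fun x : Fin N ⊕ Fin N => (f x).toWord)).comp Primrec.snd
  have h3 : PrimrecPred (fun uv : List (Fin N ⊕ Fin N) × List (Fin N ⊕ Fin N) =>
      FreeGroup.reduce (uv.1.flatMap fun x => (f x).toWord) =
        FreeGroup.reduce (uv.2.flatMap fun x => (f x).toWord)) :=
    Primrec.eq.comp (h2.comp Primrec.fst) (h2.comp Primrec.snd)
  refine h3.of_eq fun uv => ?_
  rw [h1, h1]
  constructor
  · intro h
    exact FreeGroup.reduce.exact h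
  · intro h
    exact FreeGroup.reduce.sound h

end Q25.IM
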