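import Mathlib
import Pool.Agent.Q25.IM.Alg

/-!
# The maximal group image of a good special inverse monoid
-/

namespace Q25.IM

variable {A : Type} {R : List (List (A ⊕ A))}

lemma toFree_nil : toFree ([] : List (A ⊕ A)) = 1 := rfl

lemma toFree_cons (y : A ⊕ A) (u : List (A ⊕ A)) : toFree (y :: u) = toFree [y] * toFree u := by
  simp [toFree]

lemma toFree_append (u v : List (A ⊕ A)) : toFree (u ++ v) = toFree u * toFree v := by
  simp [toFree]

lemma toFree_inv (u : List (A ⊕ A)) : toFree (inv u) = (toFree u)⁻¹ := by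
  induction u with
  | nil => rw [inv_nil, toFree_nil, inv_one]
  | cons y u ih =>
    rw [inv_cons, toFree_append, ih, toFree_cons y u, mul_inv_rev]
    congr 1
    rcases y with x | x <;> simp [toFree]

lemma gval_nil : gval R [] = 1 := rfl

lemma gval_append (u v : List (A ⊕ A)) : gval R (u ++ v) = gval R u * gval R v := by
  unfold gval
  rw [toFree_append]
  rfl

lemma gval_inv (u : List (A ⊕ A)) : gval R (inv u) = (gval R u)⁻¹ := by
  unfold gval
  rw [toFree_inv]
  rfl

lemma gval_rel {w : List (A ⊕ A)} (hw : w ∈ R) : gval R w = 1 :=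
  PresentedGroup.one_of_mem (rels := {g : FreeGroup A | ∃ w ∈ R, g = toFree w}) ⟨w, hw, rfl⟩

/-- The homomorphism from the free monoid to the maximal group image. -/
def gvalHom (R : List (List (A ⊕ A))) : FreeMonoid (A ⊕ A) →* GroupImage R where
  toFun u := gval R (FreeMonoid.toList u)
  map_one' := gval_nil
  map_mul' u v := gval_append _ _

lemma cong_le_ker : cong R ≤ Con.ker (gvalHom R) := by
  refine Con.conGen_le.2 ?_
  rintro a b (⟨u, ha, hb⟩ | ⟨u, v, ha, hb⟩ | ⟨w, hw, ha, hb⟩)
  · rw [Con.ker_rel, ha, hb]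
    change gval R (u ++ inv u ++ u) = gval R u
    rw [gval_append, gval_append, gval_inv, mul_inv_cancel, one_mul]
  · rw [Con.ker_rel, ha, hb]
    change gval R (u ++ inv u ++ (v ++ inv v)) = gval R (v ++ inv v ++ (u ++ inv u))
    simp only [gval_append, gval_inv, mul_inv_cancel]
  · rw [Con.ker_rel, ha, hb, map_one]
    exact gval_rel hw

lemma gval_of_val {u v : List (A ⊕ A)} (h : val R u = val R v) : gval R u = gval R v :=
  Con.ker_rel (gvalHom R) |>.1 (cong_le_ker (val_eq_iff.1 h))

section

variable {t : A} (hR : Good R t)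

include hR

lemma comm_pow_ru (n : ℕ) {m : InvMon R} (hm : RU m) :
    m * val R [Sum.inl t] ^ n = val R [Sum.inl t] ^ n * m :=
  comm_ru hR (pow_comm hR n) hm

/-- Eventual equality. -/
def evCon : Con (InvMon R) where
  r a b := ∃ N : ℕ, val R [Sum.inl t] ^ N * a = val R [Sum.inl t] ^ N * b
  iseqv := by
    refine ⟨fun a => ⟨0, rfl⟩, fun {a b} ⟨N, h⟩ => ⟨N, h.symm⟩, ?_⟩
    rintro a b c ⟨N, h⟩ ⟨N', h'⟩
    refine ⟨N' + N, ?_⟩
    rw [pow_add, mul_assoc, h, ← mul_assoc, ← pow_add, Nat.add_comm, pow_add, mul_assoc, h',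
      ← mul_assoc, ← pow_add, Nat.add_comm, pow_add]
  mul' := by
    rintro a b c d ⟨N, h⟩ ⟨N', h'⟩
    obtain ⟨u, rfl⟩ := exists_word a
    obtain ⟨L, hL⟩ := exists_ru hR u
    refine ⟨N + (N' + L), ?_⟩
    have h1 : val R [Sum.inl t] ^ (N' + L) * (val R u * c) =
        val R [Sum.inl t] ^ (N' + L) * (val R u * d) := by
      calc val R [Sum.inl t] ^ (N' + L) * (val R u * c)
          = val R [Sum.inl t] ^ N' * (val R [Sum.inl t] ^ L * val R u) * c := by
            rw [pow_add]; simp only [mul_assoc]
        _ = (val R [Sum.inl t] ^ L * val R u) * (val R [Sum.inl t] ^ N' * c) := by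
            rw [← comm_pow_ru hR N' hL]; simp only [mul_assoc]
        _ = (val R [Sum.inl t] ^ L * val R u) * (val R [Sum.inl t] ^ N' * d) := by rw [h']
        _ = val R [Sum.inl t] ^ N' * (val R [Sum.inl t] ^ L * val R u) * d := by
            rw [← comm_pow_ru hR N' hL]; simp only [mul_assoc]
        _ = val R [Sum.inl t] ^ (N' + L) * (val R u * d) := by
            rw [pow_add]; simp only [mul_assoc]
    have h2 : val R [Sum.inl t] ^ N * (val R [Sum.inl t] ^ (N' + L) * (val R u * d)) =
        val R [Sum.inl t] ^ (N' + L) * (val R [Sum.inl t] ^ N * val R u) * d := by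
      rw [← mul_assoc, ← pow_add, Nat.add_comm N, pow_add]
      simp only [mul_assoc]
    calc val R [Sum.inl t] ^ (N + (N' + L)) * (val R u * c)
        = val R [Sum.inl t] ^ N * (val R [Sum.inl t] ^ (N' + L) * (val R u * c)) := by
          rw [pow_add _ N, mul_assoc]
      _ = val R [Sum.inl t] ^ N * (val R [Sum.inl t] ^ (N' + L) * (val R u * d)) := by rw [h1]
      _ = val R [Sum.inl t] ^ (N' + L) * (val R [Sum.inl t] ^ N * val R u) * d := h2
      _ = val R [Sum.inl t] ^ (N' + L) * (val R [Sum.inl t] ^ N * b) * d := by rw [h]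
      _ = val R [Sum.inl t] ^ (N + (N' + L)) * (b * d) := by
          rw [Nat.add_comm N, pow_add _ _ N]; simp only [mul_assoc]

/-- The generators are invertible up to eventual equality. -/
def evUnit (x : A) : (evCon hR).Quotientˣ where
  val := (val R [Sum.inl x] : InvMon R)
  inv := (val R [Sum.inr x] : InvMon R)
  val_inv := by
    rw [← Con.coe_mul, hR.ru]
    rfl
  inv_val := by
    rw [← Con.coe_mul]
    have he : val R [Sum.inr x] * val R [Sum.inl x] * (val R [Sum.inr x] * val R [Sum.inl x]) =
        val R [Sum.inr x] * val R [Sum.inl x] := by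
      rw [mul_assoc, ← mul_assoc (val R [Sum.inl x]), hR.ru, one_mul]
    obtain ⟨N, hN⟩ := absorb hR he
    refine (Con.eq _).2 ⟨N, ?_⟩
    rw [hN N le_rfl, mul_one]

lemma evHom_toFree (u : List (A ⊕ A)) :
    ((FreeGroup.lift (evUnit hR) (toFree u) : (evCon hR).Quotientˣ) : (evCon hR).Quotient) =
      ((val R u : InvMon R) : (evCon hR).Quotient) := by
  induction u with
  | nil => rw [toFree_nil, map_one, Units.val_one, val_nil]; rfl
  | cons y u ih =>
    rw [toFree_cons, map_mul, Units.val_mul, ih, val_cons y u, Con.coe_mul]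
    congr 1
    rcases y with x | x
    · simp [toFree, evUnit]
    · simp only [toFree, List.map_cons, Sum.elim_inr, List.map_nil, List.prod_cons, List.prod_nil,
        mul_one, map_inv, FreeGroup.lift_apply_of]
      rfl

lemma evHom_rel (g : FreeGroup A) (hg : g ∈ {g : FreeGroup A | ∃ w ∈ R, g = toFree w}) :
    FreeGroup.lift (evUnit hR) g = 1 := by
  obtain ⟨w, hw, rfl⟩ := hg
  apply Units.ext
  rw [evHom_toFree, rel_val hw]
  rfl

/-- Words equal in the group are eventually equal in the inverse monoid. -/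
lemma eventually_eq {u v : List (A ⊕ A)} (h : gval R u = gval R v) :
    ∃ N : ℕ, val R [Sum.inl t] ^ N * val R u = val R [Sum.inl t] ^ N * val R v := by
  have h1 : ∀ u : List (A ⊕ A), PresentedGroup.toGroup (f := evUnit hR) (evHom_rel hR) (gval R u) =
      FreeGroup.lift (evUnit hR) (toFree u) := fun u => rfl
  have h2 := congrArg (fun g => ((PresentedGroup.toGroup (f := evUnit hR) (evHom_rel hR) g :
    (evCon hR).Quotientˣ) : (evCon hR).Quotient)) h
  simp only [h1, evHom_toFree] at h2
  exact (Con.eq _).1 h2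

/-- Right units equal in the group are equal in the inverse monoid. -/
lemma ru_eq {u v : List (A ⊕ A)} (hu : RU (val R u)) (hv : RU (val R v))
    (h : gval R u = gval R v) : val R u = val R v := by
  obtain ⟨N, hN⟩ := eventually_eq hR h
  rw [← comm_pow_ru hR N hu, ← comm_pow_ru hR N hv] at hN
  obtain ⟨T', hT'⟩ := RU_pow hR N
  calc val R u = val R u * val R [Sum.inl t] ^ N * T' := by rw [mul_assoc, hT', mul_one]
    _ = val R v := by rw [hN, mul_assoc, hT', mul_one]

lemma val_rep (N : ℕ) : val R (List.replicate N (Sum.inl t)) = val R [Sum.inl t] ^ N := by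
  induction N with
  | zero => rw [pow_zero]; rfl
  | succ N ih => rw [List.replicate_succ, val_cons, ih, pow_succ']

/-- The prefix monoid is right reversible. -/
theorem rightReversible : RightReversible (prefixMonoid R) := by
  rintro a ⟨u, hu, rfl⟩ b ⟨v, hv, rfl⟩
  obtain ⟨N1, h1⟩ := exists_ru_le hR (inv u)
  obtain ⟨N2, h2⟩ := exists_ru_le hR (inv v)
  set N := max N1 N2 with hN
  have key : ∀ w : List (A ⊕ A), RU (val R w) →
      gval R w * gval R (List.replicate N (Sum.inl t) ++ inv w) =
        gval R (List.replicate N (Sum.inl t)) := by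
    intro w hw
    have h3 : gval R (w ++ List.replicate N (Sum.inl t)) =
        gval R (List.replicate N (Sum.inl t) ++ w) := by
      apply gval_of_val
      rw [val_append, val_append, val_rep hR, comm_pow_ru hR N hw]
    rw [gval_append] at h3 ⊢
    rw [gval_append] at h3
    rw [← mul_assoc, h3, gval_inv, mul_inv_cancel_right]
  refine ⟨gval R (List.replicate N (Sum.inl t) ++ inv u), ⟨_, ?_, rfl⟩,
    gval R (List.replicate N (Sum.inl t) ++ inv v), ⟨_, ?_, rfl⟩, ?_⟩
  · rw [val_append, val_rep hR]
    exact h1 N (le_max_left _ _)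
  · rw [val_append, val_rep hR]
    exact h2 N (le_max_right _ _)
  · rw [key u hu, key v hv]

end

end Q25.IM
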