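import Mathlib
import Pool.Agent.Q25.IM.Grp

/-!
# Right units map into the submonoid generated by the generators
-/

namespace Q25.IM

variable {A : Type} {G : Type} [Group G]

/-- The value of a letter. -/
def lval (φ : A → G) : A ⊕ A → G := Sum.elim φ fun x => (φ x)⁻¹

/-- The value of a word. -/
def wval (φ : A → G) (u : List (A ⊕ A)) : G := (u.map (lval φ)).prod

lemma wval_nil (φ : A → G) : wval φ [] = 1 := rfl

lemma wval_cons (φ : A → G) (y : A ⊕ A) (u : List (A ⊕ A)) :
    wval φ (y :: u) = lval φ y * wval φ u := by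
  simp [wval]

lemma wval_append (φ : A → G) (u v : List (A ⊕ A)) : wval φ (u ++ v) = wval φ u * wval φ v := by
  simp [wval]

lemma lval_swap (φ : A → G) (y : A ⊕ A) : lval φ y.swap = (lval φ y)⁻¹ := by
  rcases y with x | x <;> simp [lval]

lemma wval_inv (φ : A → G) (u : List (A ⊕ A)) : wval φ (inv u) = (wval φ u)⁻¹ := by
  induction u with
  | nil => rw [inv_nil, wval_nil, inv_one]
  | cons y u ih => rw [inv_cons, wval_append, ih, wval_cons, wval_cons, wval_nil, mul_one,
      lval_swap, mul_inv_rev]

/-- The path labelled `u` from `p` stays in `P`. -/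
def Stays (φ : A → G) (P : Set G) : G → List (A ⊕ A) → Prop
  | p, [] => p ∈ P
  | p, y :: v => p ∈ P ∧ Stays φ P (p * lval φ y) v

variable {φ : A → G} {P : Set G}

lemma Stays.start {p : G} {u : List (A ⊕ A)} (h : Stays φ P p u) : p ∈ P := by
  cases u with
  | nil => exact h
  | cons y u => exact h.1

lemma stays_append (p : G) (u v : List (A ⊕ A)) :
    Stays φ P p (u ++ v) ↔ Stays φ P p u ∧ Stays φ P (p * wval φ u) v := by
  induction u generalizing p with
  | nil =>
    rw [List.nil_append, wval_nil, mul_one]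
    exact ⟨fun h => ⟨h.start, h⟩, fun h => h.2⟩
  | cons y u ih =>
    rw [List.cons_append, wval_cons, ← mul_assoc]
    simp only [Stays]
    rw [ih]
    tauto

lemma Stays.fin {p : G} {u : List (A ⊕ A)} (h : Stays φ P p u) : p * wval φ u ∈ P := by
  have := (stays_append p u []).1 (by rwa [List.append_nil])
  exact this.2

lemma stays_inv (p : G) (u : List (A ⊕ A)) :
    Stays φ P (p * wval φ u) (inv u) ↔ Stays φ P p u := by
  induction u generalizing p with
  | nil => rw [inv_nil, wval_nil, mul_one]
  | cons y u ih =>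
    rw [inv_cons, stays_append, wval_cons, ← mul_assoc, ih, wval_inv, mul_inv_cancel_right]
    simp only [Stays]
    rw [lval_swap, mul_inv_cancel_right]
    constructor
    · rintro ⟨h1, _, h2⟩; exact ⟨h2, h1⟩
    · rintro ⟨h1, h2⟩; exact ⟨h2, h2.start, h1⟩

/-- The congruence given by the action. -/
def actCon (φ : A → G) (P : Set G) : Con (FreeMonoid (A ⊕ A)) where
  r a b := wval φ (FreeMonoid.toList a) = wval φ (FreeMonoid.toList b) ∧
    ∀ p, Stays φ P p (FreeMonoid.toList a) ↔ Stays φ P p (FreeMonoid.toList b)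
  iseqv := by
    refine ⟨fun a => ⟨rfl, fun p => Iff.rfl⟩, fun {a b} h => ⟨h.1.symm, fun p => (h.2 p).symm⟩, ?_⟩
    rintro a b c h h'
    exact ⟨h.1.trans h'.1, fun p => (h.2 p).trans (h'.2 p)⟩
  mul' := by
    rintro a b c d h h'
    rw [FreeMonoid.toList_mul, FreeMonoid.toList_mul, wval_append, wval_append, h.1, h'.1]
    refine ⟨rfl, fun p => ?_⟩
    rw [stays_append, stays_append, h.1, h.2, h'.2]

lemma cong_le_act {R : List (List (A ⊕ A))}
    (hR : ∀ w ∈ R, wval φ w = 1 ∧ ∀ p ∈ P, Stays φ P p w) : cong R ≤ actCon φ P := by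
  refine Con.conGen_le.2 ?_
  rintro a b (⟨u, ha, hb⟩ | ⟨u, v, ha, hb⟩ | ⟨w, hw, ha, hb⟩)
  · rw [ha, hb]
    refine ⟨?_, fun p => ?_⟩
    · change wval φ (u ++ inv u ++ u) = wval φ u
      rw [wval_append, wval_append, wval_inv, mul_inv_cancel, one_mul]
    · change Stays φ P p (u ++ inv u ++ u) ↔ Stays φ P p u
      rw [stays_append, stays_append, wval_append, stays_inv, wval_inv, mul_inv_cancel, mul_one]
      tauto
  · rw [ha, hb]
    refine ⟨?_, fun p => ?_⟩
    · change wval φ (u ++ inv u ++ (v ++ inv v)) = wval φ (v ++ inv v ++ (u ++ inv u))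
      simp only [wval_append, wval_inv, mul_inv_cancel]
    · change Stays φ P p (u ++ inv u ++ (v ++ inv v)) ↔ Stays φ P p (v ++ inv v ++ (u ++ inv u))
      simp only [stays_append, stays_inv, wval_append, wval_inv, mul_inv_cancel, mul_one]
      tauto
  · rw [ha, hb]
    refine ⟨(hR w hw).1, fun p => ?_⟩
    change Stays φ P p w ↔ p ∈ P
    exact ⟨fun h => h.start, fun h => (hR w hw).2 p h⟩

lemma stays_of_ru {R : List (List (A ⊕ A))}
    (hR : ∀ w ∈ R, wval φ w = 1 ∧ ∀ p ∈ P, Stays φ P p w) (h1 : (1 : G) ∈ P)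
    {u : List (A ⊕ A)} (hu : RU (val R u)) : wval φ u ∈ P := by
  rw [RU_iff, ← val_append] at hu
  have h2 : cong R (FreeMonoid.ofList (u ++ inv u)) (FreeMonoid.ofList []) := val_eq_iff.1 hu
  have h3 := (cong_le_act hR h2).2 1
  have h4 : Stays φ P 1 (u ++ inv u) := h3.2 h1
  have h5 := ((stays_append 1 u (inv u)).1 h4).1.fin
  rwa [one_mul] at h5

/-- A positive path starting in a submonoid containing the letters stays in it. -/
lemma stays_pos {P : Submonoid G} (hP : ∀ x, φ x ∈ P) {p : G} (hp : p ∈ P) (u : List A) :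
    Stays φ (P : Set G) p (u.map Sum.inl) := by
  induction u generalizing p with
  | nil => exact hp
  | cons x u ih => exact ⟨hp, ih (P.mul_mem hp (hP x))⟩

lemma wval_pos (φ : A → G) (u : List A) : wval φ (u.map Sum.inl) = (u.map φ).prod := by
  simp only [wval, List.map_map]
  rfl

/-- Relators `u v⁻¹` with `u`, `v` positive words of the same value. -/
lemma stays_rel {P : Submonoid G} (hP : ∀ x, φ x ∈ P) {u v : List A}
    (h : (u.map φ).prod = (v.map φ).prod) :
    wval φ (u.map Sum.inl ++ inv (v.map Sum.inl)) = 1 ∧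
      ∀ p ∈ (P : Set G), Stays φ (P : Set G) p (u.map Sum.inl ++ inv (v.map Sum.inl)) := by
  refine ⟨?_, fun p hp => ?_⟩
  · rw [wval_append, wval_inv, wval_pos, wval_pos, h, mul_inv_cancel]
  · rw [stays_append]
    refine ⟨stays_pos hP hp u, ?_⟩
    rw [wval_pos, h, ← wval_pos, stays_inv]
    exact stays_pos hP hp v

/-- Words `u`, `v` with `u v⁻¹ = 1` are equal in the inverse monoid. -/
lemma eq_of_rel {R : List (List (A ⊕ A))} {u v : List (A ⊕ A)} (h : val R (u ++ inv v) = 1) :
    val R u = val R v := by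
  have h0 : RU (val R (u ++ inv v)) := by rw [h]; exact RU_one
  have h1 := (RU_iff _).1 h0
  rw [h, one_mul, inv_append, inv_inv] at h1
  rw [val_append] at h h1
  -- `h : u v' = 1`, `h1 : v u' = 1`
  calc val R u = val R v * val R (inv u) * val R u := by rw [h1, one_mul]
    _ = val R u * val R (inv v) * (val R v * val R (inv u) * val R u) := by rw [h, one_mul]
    _ = val R u * (val R (inv v) * val R v * (val R (inv u) * val R u)) := by
        simp only [mul_assoc]
    _ = val R u * (val R (inv u) * val R u * (val R (inv v) * val R v)) := by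
        have := comm (R := R) (inv v) (inv u)
        rw [inv_inv, inv_inv] at this
        rw [this]
    _ = val R u * val R (inv u) * val R u * val R (inv v) * val R v := by simp only [mul_assoc]
    _ = val R v := by rw [reg, h, one_mul]

end Q25.IM
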