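import Mathlib
import Pool.Agent.Q25.IM.Lower
import Pool.Agent.Q25.IM.Code

/-!
# The concrete special inverse monoid
-/

namespace Q25.IM

open Multiplicative

/-- Generators. -/
inductive Gen (S J : Type)
  | t
  | a (s : S) (b : Bool)
  | b (s : Option J) (b : Bool)
  | z (z : Z J)

instance {J : Type} [Finite J] : Finite (Z J) := by
  let f : Z J → (J ⊕ J) ⊕ Unit := fun x => match x with
    | .V j => .inl (.inl j)
    | .U j => .inl (.inr j)
    | .M => .inr ()
  apply Finite.of_injective f
  intro x y h
  cases x <;> cases y <;> simp_all [f]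

instance {S J : Type} [Finite S] [Finite J] : Finite (Gen S J) := by
  let f : Gen S J → (S × Bool) ⊕ (Option J × Bool) ⊕ (Z J) ⊕ Unit := fun x => match x with
    | .a s b => .inl (s, b)
    | .b s b => .inr (.inl (s, b))
    | .z z => .inr (.inr (.inl z))
    | .t => .inr (.inr (.inr ()))
  apply Finite.of_injective f
  intro x y h
  cases x <;> cases y <;> simp_all [f]

/-- The target group. -/
abbrev GG (S J : Type) : Type := (FreeGroup S × FreeGroup (Option J)) × Multiplicative ℤ

variable {S J : Type} (p q : J → List S) (k : S)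

/-- A free generator or its inverse. -/
def sgn {α : Type} (s : α) (b : Bool) : FreeGroup α := cond b (FreeGroup.of s) (FreeGroup.of s)⁻¹

lemma sgn_not {α : Type} (s : α) (b : Bool) : sgn s b * sgn s (!b) = 1 := by
  cases b <;> simp [sgn]

/-- Values of the generators. -/
def phi : Gen S J → GG S J
  | .t => (1, ofAdd 1)
  | .a s b => ((sgn s b, 1), ofAdd 1)
  | .b s b => ((1, sgn s b), ofAdd 1)
  | .z z => (zval p q k z, 1)

/-- The positive word of level `n` representing a level zero letter times `t ^ n`. -/
def zword : Z J → List (Gen S J)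
  | .V j => (p j).map (fun s => .a s true) ++ [.b (some j) true]
  | .U j => (q j).reverse.map (fun s => .a s false) ++
      [.b none false, .b (some j) false, .b none true]
  | .M => [.a k true, .b none true]

lemma prod_a (L : List S) (c : Bool) :
    ((L.map (fun s => (Gen.a s c : Gen S J))).map (phi p q k)).prod =
      (((L.map fun s => sgn s c).prod, 1), ofAdd (L.length : ℤ)) := by
  induction L with
  | nil => rfl
  | cons s L ih =>
    rw [List.map_cons, List.map_cons, List.prod_cons, ih, List.map_cons, List.prod_cons,
      List.length_cons]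
    simp only [phi, Prod.mk_mul_mk, one_mul, ← ofAdd_add]
    congr 2
    push_cast; ring

lemma prod_sgn_true {α : Type} (L : List α) : (L.map fun s => sgn s true).prod = pos L := rfl

lemma prod_sgn_false {α : Type} (L : List α) :
    (L.reverse.map fun s => sgn s false).prod = (pos L)⁻¹ := by
  induction L with
  | nil => simp [pos_nil]
  | cons s L ih =>
    rw [List.reverse_cons, List.map_append, List.prod_append, ih, pos_cons, mul_inv_rev]
    simp [sgn]

lemma prod_zword (z : Z J) : ((zword p q k z).map (phi p q k)).prod =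
    (zval p q k z, ofAdd ((zword p q k z).length : ℤ)) := by
  cases z with
  | V j =>
    rw [zword, List.map_append, List.prod_append, prod_a, prod_sgn_true, List.length_append]
    simp only [zval, phi, sgn, List.map_cons, List.map_nil, List.prod_cons, List.prod_nil, mul_one,
      Prod.mk_mul_mk, ← ofAdd_add, cond_true, one_mul, List.length_map]
    rfl
  | U j =>
    rw [zword, List.map_append, List.prod_append, prod_a, prod_sgn_false, List.length_append]
    simp only [zval, phi, sgn, List.map_cons, List.map_nil, List.prod_cons, List.prod_nil, mul_one,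
      Prod.mk_mul_mk, ← ofAdd_add, cond_true, cond_false, one_mul, List.length_map, mul_assoc]
    rfl
  | M =>
    simp only [zword, zval, phi, sgn, List.map_cons, List.map_nil, List.prod_cons, List.prod_nil,
      mul_one, Prod.mk_mul_mk, ← ofAdd_add, cond_true, one_mul]
    rfl

/-- The positive relations. -/
inductive PRel : List (Gen S J) → List (Gen S J) → Prop
  | cent (x : Gen S J) : PRel [.t, x] [x, .t]
  | ainv (s : S) (c : Bool) : PRel [.a s c, .a s (!c)] [.t, .t]
  | binv (s : Option J) (c : Bool) : PRel [.b s c, .b s (!c)] [.t, .t]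
  | comm (s : S) (c : Bool) (r : Option J) (d : Bool) : PRel [.a s c, .b r d] [.b r d, .a s c]
  | dfn (z : Z J) : PRel (.z z :: List.replicate (zword p q k z).length .t) (zword p q k z)

lemma prod_t (n : ℕ) : ((List.replicate n (Gen.t : Gen S J)).map (phi p q k)).prod =
    (1, ofAdd (n : ℤ)) := by
  rw [List.map_replicate, List.prod_replicate]
  simp only [phi, Prod.pow_mk, one_pow, ← ofAdd_nsmul]
  simp

lemma PRel.phi {u v : List (Gen S J)} (h : PRel p q k u v) :
    (u.map (phi p q k)).prod = (v.map (IM.phi p q k)).prod := by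
  cases h with
  | cent x =>
    simp only [List.map_cons, List.map_nil, List.prod_cons, List.prod_nil, mul_one]
    rcases h : IM.phi p q k x with ⟨g, n⟩
    simp only [IM.phi, Prod.mk_mul_mk, one_mul, mul_one, mul_comm]
  | ainv s c =>
    simp only [List.map_cons, List.map_nil, List.prod_cons, List.prod_nil, mul_one, IM.phi,
      Prod.mk_mul_mk, sgn_not]
    rfl
  | binv s c =>
    simp only [List.map_cons, List.map_nil, List.prod_cons, List.prod_nil, mul_one, IM.phi,
      Prod.mk_mul_mk, sgn_not]
    rfl
  | comm s c r d =>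
    simp only [List.map_cons, List.map_nil, List.prod_cons, List.prod_nil, mul_one, IM.phi,
      Prod.mk_mul_mk, one_mul]
  | dfn z =>
    rw [List.map_cons, List.prod_cons, prod_t, prod_zword]
    simp only [IM.phi, Prod.mk_mul_mk, one_mul, mul_one]

/-- The relators of the special inverse monoid, for generators named by a type `X`. -/
def relSet {X : Type} (e : Gen S J ≃ X) : Set (List (X ⊕ X)) :=
  {w | (∃ x : X, w = [Sum.inl x, Sum.inr x]) ∨
    ∃ u v : List (Gen S J), PRel p q k u v ∧
      w = (u.map e).map Sum.inl ++ inv ((v.map e).map Sum.inl)}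

lemma relSet_finite [Finite S] [Finite J] {X : Type} (e : Gen S J ≃ X) :
    (relSet p q k e).Finite := by
  have hX : Finite X := Finite.of_equiv _ e
  have h1 : {uv : List (Gen S J) × List (Gen S J) | PRel p q k uv.1 uv.2} ⊆
      Set.range (fun x : Gen S J => ([.t, x], [x, .t])) ∪
      Set.range (fun x : S × Bool => ([.a x.1 x.2, .a x.1 (!x.2)], [.t, .t])) ∪
      Set.range (fun x : Option J × Bool => ([.b x.1 x.2, .b x.1 (!x.2)], [.t, .t])) ∪
      Set.range (fun x : (S × Bool) × (Option J × Bool) =>
        ([.a x.1.1 x.1.2, .b x.2.1 x.2.2], [.b x.2.1 x.2.2, .a x.1.1 x.1.2])) ∪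
      Set.range (fun z : Z J =>
        (.z z :: List.replicate (zword p q k z).length .t, zword p q k z)) := by
    rintro ⟨u, v⟩ h
    simp only [Set.mem_setOf_eq] at h
    cases h with
    | cent x => exact Or.inl (Or.inl (Or.inl (Or.inl ⟨x, rfl⟩)))
    | ainv s c => exact Or.inl (Or.inl (Or.inl (Or.inr ⟨(s, c), rfl⟩)))
    | binv s c => exact Or.inl (Or.inl (Or.inr ⟨(s, c), rfl⟩))
    | comm s c r d => exact Or.inl (Or.inr ⟨((s, c), (r, d)), rfl⟩)
    | dfn z => exact Or.inr ⟨z, rfl⟩
  have h2 : {uv : List (Gen S J) × List (Gen S J) | PRel p q k uv.1 uv.2}.Finite :=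
    (((((Set.finite_range _).union (Set.finite_range _)).union (Set.finite_range _)).union
      (Set.finite_range _)).union (Set.finite_range _)).subset h1
  have h3 := (Set.finite_range (fun x : X => [Sum.inl x, (Sum.inr x : X ⊕ X)])).union
    (h2.image (fun uv => (uv.1.map e).map Sum.inl ++ inv ((uv.2.map e).map Sum.inl)))
  refine h3.subset ?_
  rintro w (⟨x, rfl⟩ | ⟨u, v, h, rfl⟩)
  · exact Or.inl ⟨x, rfl⟩
  · exact Or.inr ⟨(u, v), h, rfl⟩

end Q25.IM
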