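import Mathlib
import Pool.Agent.Q25.IM.Pres

/-!
# Properties of the concrete special inverse monoid
-/

namespace Q25.IM

open Multiplicative

variable {S J : Type} (p q : J → List S) (k : S) {X : Type} (e : Gen S J ≃ X)
  (R : List (List (X ⊕ X)))

/-- Positive words over the named generators. -/
def pw {S J X : Type} (e : Gen S J ≃ X) (u : List (Gen S J)) : List (X ⊕ X) :=
  (u.map e).map Sum.inl

omit p q k R in
lemma pw_append (u v : List (Gen S J)) : pw e (u ++ v) = pw e u ++ pw e v := by simp [pw]

/-- Values of the named generators. -/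
def phiX {S J X : Type} (p q : J → List S) (k : S) (e : Gen S J ≃ X) (x : X) : GG S J :=
  phi p q k (e.symm x)

lemma wval_pw (u : List (Gen S J)) :
    wval (phiX p q k e) (pw e u) = (u.map (phi p q k)).prod := by
  rw [pw, wval_pos, List.map_map]
  congr 2
  funext x
  simp [phiX]

variable (hmem : ∀ w, w ∈ R ↔ w ∈ relSet p q k e)

include hmem

lemma ru_gen (x : X) : val R [Sum.inl x] * val R [Sum.inr x] = 1 := by
  rw [← val_append]
  exact rel_val ((hmem _).2 (Or.inl ⟨x, rfl⟩))

lemma val_prel {u v : List (Gen S J)} (h : PRel p q k u v) : val R (pw e u) = val R (pw e v) :=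
  eq_of_rel (rel_val ((hmem _).2 (Or.inr ⟨u, v, h, rfl⟩)))

lemma cent_gen (x : X) : val R [Sum.inl (e .t)] * val R [Sum.inl x] =
    val R [Sum.inl x] * val R [Sum.inl (e .t)] := by
  have := val_prel p q k e R hmem (PRel.cent (e.symm x))
  simp only [pw, List.map_cons, List.map_nil, Equiv.apply_symm_apply] at this
  exact this

lemma ainv_gen (s : S) (c : Bool) :
    val R (pw e [.a s c]) * val R (pw e [.a s (!c)]) = val R [Sum.inl (e .t)] ^ 2 := by
  rw [pow_two]
  exact val_prel p q k e R hmem (PRel.ainv s c)

lemma binv_gen (s : Option J) (c : Bool) :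
    val R (pw e [.b s c]) * val R (pw e [.b s (!c)]) = val R [Sum.inl (e .t)] ^ 2 := by
  rw [pow_two]
  exact val_prel p q k e R hmem (PRel.binv s c)

lemma t_pow_comm (n : ℕ) (u : List (Gen S J)) :
    val R [Sum.inl (e .t)] ^ n * val R (pw e u) = val R (pw e u) * val R [Sum.inl (e .t)] ^ n := by
  induction u with
  | nil => rw [show pw e ([] : List (Gen S J)) = [] from rfl, val_nil, one_mul, mul_one]
  | cons x u ih =>
    have h1 : val R (pw e (x :: u)) = val R [Sum.inl (e x)] * val R (pw e u) := rfl
    have h2 : ∀ n : ℕ, val R [Sum.inl (e .t)] ^ n * val R [Sum.inl (e x)] =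
        val R [Sum.inl (e x)] * val R [Sum.inl (e .t)] ^ n := by
      intro n
      induction n with
      | zero => rw [pow_zero, one_mul, mul_one]
      | succ n ihn => rw [pow_succ, mul_assoc, cent_gen p q k e R hmem, ← mul_assoc, ihn, mul_assoc]
    rw [h1, ← mul_assoc, h2, mul_assoc, ih, mul_assoc]

/-- The words over the letters `a`, `b`. -/
def IsAB {S J : Type} (u : List (Gen S J)) : Prop :=
  ∀ x ∈ u, (∃ s c, x = .a s c) ∨ ∃ s c, x = .b s c

omit hmem R e X in
lemma zword_AB (z : Z J) : IsAB (zword p q k z) := by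
  intro x hx
  cases z with
  | V j =>
    simp only [zword, List.mem_append, List.mem_map, List.mem_singleton] at hx
    rcases hx with ⟨s, _, rfl⟩ | rfl
    · exact Or.inl ⟨_, _, rfl⟩
    · exact Or.inr ⟨_, _, rfl⟩
  | U j =>
    simp only [zword, List.mem_append, List.mem_map, List.mem_cons, List.not_mem_nil,
      or_false] at hx
    rcases hx with ⟨s, _, rfl⟩ | rfl | rfl | rfl
    · exact Or.inl ⟨_, _, rfl⟩
    · exact Or.inr ⟨_, _, rfl⟩
    · exact Or.inr ⟨_, _, rfl⟩
    · exact Or.inr ⟨_, _, rfl⟩
  | M =>
    simp only [zword, List.mem_cons, List.not_mem_nil, or_false] at hx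
    rcases hx with rfl | rfl
    · exact Or.inl ⟨_, _, rfl⟩
    · exact Or.inr ⟨_, _, rfl⟩

lemma ab_div (u : List (Gen S J)) (hu : IsAB u) :
    ∃ u' : List (Gen S J), val R (pw e u') * val R (pw e u) =
      val R [Sum.inl (e .t)] ^ (2 * u.length) := by
  induction u with
  | nil => exact ⟨[], by rw [List.length_nil, mul_zero, pow_zero]; exact one_mul 1⟩
  | cons x u ih =>
    obtain ⟨u', hu'⟩ := ih (fun y hy => hu y (List.mem_cons_of_mem _ hy))
    have h1 : ∃ y : Gen S J, val R (pw e [y]) * val R (pw e [x]) =
        val R [Sum.inl (e .t)] ^ 2 := by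
      rcases hu x List.mem_cons_self with ⟨s, c, rfl⟩ | ⟨s, c, rfl⟩
      · refine ⟨.a s (!c), ?_⟩
        have := ainv_gen p q k e R hmem s (!c)
        rwa [Bool.not_not] at this
      · refine ⟨.b s (!c), ?_⟩
        have := binv_gen p q k e R hmem s (!c)
        rwa [Bool.not_not] at this
    obtain ⟨y, hy⟩ := h1
    refine ⟨u' ++ [y], ?_⟩
    have h2 : val R (pw e (x :: u)) = val R (pw e [x]) * val R (pw e u) := rfl
    rw [pw_append, val_append, h2]
    calc val R (pw e u') * val R (pw e [y]) * (val R (pw e [x]) * val R (pw e u))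
        = val R (pw e u') * (val R (pw e [y]) * val R (pw e [x]) * val R (pw e u)) := by
          simp only [mul_assoc]
      _ = val R (pw e u') * val R (pw e u) * val R [Sum.inl (e .t)] ^ 2 := by
          rw [hy, t_pow_comm p q k e R hmem, mul_assoc]
      _ = val R [Sum.inl (e .t)] ^ (2 * (x :: u).length) := by
          rw [hu', ← pow_add, List.length_cons, mul_add, mul_one]

omit hmem in
lemma val_rep' (n : ℕ) : val R (pw e (List.replicate n .t)) = val R [Sum.inl (e .t)] ^ n := by
  induction n with
  | zero => rfl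
  | succ n ih =>
    rw [pow_succ', ← ih]
    rfl

lemma def_gen (z : Z J) : val R (pw e [.z z]) *
    val R [Sum.inl (e .t)] ^ (zword p q k z).length = val R (pw e (zword p q k z)) := by
  rw [← val_rep']
  exact val_prel p q k e R hmem (PRel.dfn z)

lemma good : Good R (e .t) where
  ru := ru_gen p q k e R hmem
  cent := cent_gen p q k e R hmem
  div := by
    intro x
    obtain ⟨g, rfl⟩ := e.surjective x
    have key : ∃ (u : List (Gen S J)) (j : ℕ), val R (pw e u) * val R (pw e [g]) =
        val R [Sum.inl (e .t)] ^ j := by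
      cases g with
      | t => exact ⟨[], 1, by rw [pow_one]; exact one_mul _⟩
      | a s c =>
        obtain ⟨u', hu'⟩ := ab_div p q k e R hmem [.a s c]
          (fun x hx => Or.inl ⟨s, c, List.mem_singleton.1 hx⟩)
        exact ⟨u', _, hu'⟩
      | b s c =>
        obtain ⟨u', hu'⟩ := ab_div p q k e R hmem [.b s c]
          (fun x hx => Or.inr ⟨s, c, List.mem_singleton.1 hx⟩)
        exact ⟨u', _, hu'⟩
      | z z =>
        obtain ⟨u', hu'⟩ := ab_div p q k e R hmem _ (zword_AB p q k z)
        refine ⟨u', (zword p q k z).length, ?_⟩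
        rw [← def_gen p q k e R hmem] at hu'
        obtain ⟨T', hT'⟩ : RU (val R [Sum.inl (e .t)] ^ (zword p q k z).length) := by
          generalize (zword p q k z).length = n
          induction n with
          | zero => rw [pow_zero]; exact RU_one
          | succ n ih => rw [pow_succ]; exact ih.mul ⟨_, ru_gen p q k e R hmem _⟩
        have h1 := congrArg (· * T') hu'
        simp only [mul_assoc] at h1
        rw [hT', mul_one, two_mul, pow_add, mul_assoc, hT', mul_one] at h1
        exact h1
    obtain ⟨u, j, h⟩ := key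
    exact ⟨u.map e, j, h⟩

end Q25.IM
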