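import Mathlib
import Pool.Agent.Q25.IM.Main

/-!
# The maximal group image of the concrete special inverse monoid
-/

namespace Q25.IM

open Multiplicative

section lift

variable {α H : Type} [Group H]

lemma commute_lift (f : α → H) (h : H) (hc : ∀ a, Commute (f a) h) (x : FreeGroup α) :
    Commute (FreeGroup.lift f x) h := by
  induction x using FreeGroup.induction_on with
  | C1 => rw [map_one]; exact Commute.one_left h
  | of a => rw [FreeGroup.lift_apply_of]; exact hc a
  | inv_of a _ => rw [map_inv, FreeGroup.lift_apply_of]; exact (hc a).inv_left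
  | mul x y hx hy => rw [map_mul]; exact hx.mul_left hy

end lift

variable {S J : Type} (p q : J → List S) (k : S) {X : Type} (e : Gen S J ≃ X)
  (R : List (List (X ⊕ X)))

variable (hmem : ∀ w, w ∈ R ↔ w ∈ relSet p q k e)

omit p q k in
lemma gval_pw_cons (x : Gen S J) (u : List (Gen S J)) :
    gval R (pw e (x :: u)) = gval R (pw e [x]) * gval R (pw e u) := by
  rw [← gval_append]
  rfl

include hmem

lemma gval_prel {u v : List (Gen S J)} (h : PRel p q k u v) : gval R (pw e u) = gval R (pw e v) :=
  gval_of_val (val_prel p q k e R hmem h)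

lemma gt_comm (x : Gen S J) : Commute (gval R (pw e [.t])) (gval R (pw e [x])) := by
  have := gval_prel p q k e R hmem (PRel.cent x)
  rwa [gval_pw_cons, gval_pw_cons e R x] at this

lemma ga_inv (s : S) : gval R (pw e [.a s false]) =
    (gval R (pw e [.a s true]))⁻¹ * gval R (pw e [.t]) * gval R (pw e [.t]) := by
  have := gval_prel p q k e R hmem (PRel.ainv s true)
  rw [gval_pw_cons, gval_pw_cons e R .t] at this
  rw [mul_assoc, ← this, inv_mul_cancel_left]
  rfl

lemma gb_inv (s : Option J) : gval R (pw e [.b s false]) =
    (gval R (pw e [.b s true]))⁻¹ * gval R (pw e [.t]) * gval R (pw e [.t]) := by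
  have := gval_prel p q k e R hmem (PRel.binv s true)
  rw [gval_pw_cons, gval_pw_cons e R .t] at this
  rw [mul_assoc, ← this, inv_mul_cancel_left]
  rfl

lemma gab_comm (s : S) (r : Option J) :
    Commute (gval R (pw e [.a s true])) (gval R (pw e [.b r true])) := by
  have := gval_prel p q k e R hmem (PRel.comm s true r true)
  rwa [gval_pw_cons, gval_pw_cons e R (.b r true)] at this

/-- The image of `S` in the group. -/
noncomputable def psiA : FreeGroup S →* GroupImage R :=
  FreeGroup.lift fun s => gval R (pw e [.a s true]) * (gval R (pw e [.t]))⁻¹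

/-- The image of `J` in the group. -/
noncomputable def psiB : FreeGroup (Option J) →* GroupImage R :=
  FreeGroup.lift fun s => gval R (pw e [.b s true]) * (gval R (pw e [.t]))⁻¹

lemma psiA_comm_t (x : FreeGroup S) : Commute (psiA e R x) (gval R (pw e [.t])) := by
  refine commute_lift _ _ (fun s => ?_) x
  exact ((gt_comm p q k e R hmem _).symm).mul_left (Commute.refl _).inv_left

lemma psiB_comm_t (x : FreeGroup (Option J)) : Commute (psiB e R x) (gval R (pw e [.t])) := by
  refine commute_lift _ _ (fun s => ?_) x
  exact ((gt_comm p q k e R hmem _).symm).mul_left (Commute.refl _).inv_left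

lemma psi_comm (x : FreeGroup S) (y : FreeGroup (Option J)) :
    Commute (psiA e R x) (psiB e R y) := by
  refine commute_lift _ _ (fun s => ?_) x
  refine (commute_lift _ _ (fun r => ?_) y).symm
  refine Commute.mul_left ?_ (Commute.inv_left ?_)
  · exact ((gab_comm p q k e R hmem s r).symm).mul_right (gt_comm p q k e R hmem _).symm.inv_right
  · exact (gt_comm p q k e R hmem _).mul_right (Commute.refl _).inv_right

/-- The inverse homomorphism. -/
noncomputable def psi : GG S J →* GroupImage R :=
  MonoidHom.noncommCoprod
    (MonoidHom.noncommCoprod (psiA e R) (psiB e R) (psi_comm p q k e R hmem))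
    (zpowersHom _ (gval R (pw e [.t])))
    (by
      rintro ⟨x, y⟩ n
      rw [MonoidHom.noncommCoprod_apply, zpowersHom_apply]
      exact ((psiA_comm_t p q k e R hmem x).mul_left (psiB_comm_t p q k e R hmem y)).zpow_right _)

lemma psi_apply (x : FreeGroup S) (y : FreeGroup (Option J)) (n : ℤ) :
    psi p q k e R hmem ((x, y), ofAdd n) =
      psiA e R x * psiB e R y * gval R (pw e [.t]) ^ n := by
  rw [psi, MonoidHom.noncommCoprod_apply, MonoidHom.noncommCoprod_apply, zpowersHom_apply]
  rfl

lemma psi_t : psi p q k e R hmem (phi p q k .t) = gval R (pw e [.t]) := by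
  rw [phi, Prod.one_eq_mk, psi_apply, map_one, map_one, one_mul, one_mul, zpow_one]

lemma psi_a (s : S) (c : Bool) :
    psi p q k e R hmem (phi p q k (.a s c)) = gval R (pw e [.a s c]) := by
  rw [phi, psi_apply, map_one, mul_one, zpow_one]
  cases c with
  | true => simp [sgn, psiA]
  | false =>
    rw [ga_inv p q k e R hmem]
    simp only [sgn, psiA, cond_false, map_inv, FreeGroup.lift_apply_of, mul_inv_rev, inv_inv]
    congr 1
    exact ((gt_comm p q k e R hmem (.a s true)).inv_right).eq

lemma psi_b (s : Option J) (c : Bool) :
    psi p q k e R hmem (phi p q k (.b s c)) = gval R (pw e [.b s c]) := by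
  rw [phi, psi_apply, map_one, one_mul, zpow_one]
  cases c with
  | true => simp [sgn, psiB]
  | false =>
    rw [gb_inv p q k e R hmem]
    simp only [sgn, psiB, cond_false, map_inv, FreeGroup.lift_apply_of, mul_inv_rev, inv_inv]
    congr 1
    exact ((gt_comm p q k e R hmem (.b s true)).inv_right).eq

lemma psi_AB (u : List (Gen S J)) (hu : IsAB u) :
    psi p q k e R hmem (u.map (phi p q k)).prod = gval R (pw e u) := by
  induction u with
  | nil => rw [List.map_nil, List.prod_nil, map_one]; rfl
  | cons x u ih =>
    rw [List.map_cons, List.prod_cons, map_mul, ih (fun y hy => hu y (List.mem_cons_of_mem _ hy)),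
      gval_pw_cons e R x u]
    congr 1
    rcases hu x List.mem_cons_self with ⟨s, c, rfl⟩ | ⟨s, c, rfl⟩
    · exact psi_a p q k e R hmem s c
    · exact psi_b p q k e R hmem s c

omit hmem in
lemma gval_t_pow (n : ℕ) : gval R (pw e (List.replicate n .t)) = gval R (pw e [.t]) ^ n := by
  induction n with
  | zero => rfl
  | succ n ih => rw [List.replicate_succ, gval_pw_cons, ih, pow_succ']

lemma psi_z (z : Z J) : psi p q k e R hmem (phi p q k (.z z)) = gval R (pw e [.z z]) := by
  have h1 := psi_AB p q k e R hmem _ (zword_AB p q k z)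
  rw [prod_zword] at h1
  have h2 := gval_prel p q k e R hmem (PRel.dfn z)
  rw [gval_pw_cons, gval_t_pow, ← h1] at h2
  have h3 : ((zval p q k z, ofAdd ((zword p q k z).length : ℤ)) : GG S J) =
      phi p q k (.z z) * (phi p q k .t) ^ (zword p q k z).length := by
    simp only [phi, Prod.pow_mk, one_pow, Prod.mk_mul_mk, mul_one, one_mul, ← ofAdd_nsmul]
    simp
  rw [h3, map_mul, map_pow, psi_t] at h2
  exact (mul_right_cancel h2).symm

lemma psi_phi (x : Gen S J) : psi p q k e R hmem (phi p q k x) = gval R (pw e [x]) := by
  cases x with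
  | t => exact psi_t p q k e R hmem
  | a s c => exact psi_a p q k e R hmem s c
  | b s c => exact psi_b p q k e R hmem s c
  | z z => exact psi_z p q k e R hmem z

lemma psi_wval (u : List (X ⊕ X)) :
    psi p q k e R hmem (wval (phiX p q k e) u) = gval R u := by
  induction u with
  | nil => rw [wval_nil, map_one, gval_nil]
  | cons y u ih =>
    rw [wval_cons, map_mul, ih]
    have h1 : gval R (y :: u) = gval R [y] * gval R u := by
      rw [← gval_append]; rfl
    rw [h1]
    congr 1
    have h2 : ∀ x : X, psi p q k e R hmem (phiX p q k e x) = gval R [Sum.inl x] := by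
      intro x
      obtain ⟨g, rfl⟩ := e.surjective x
      rw [phiX, Equiv.symm_apply_apply]
      exact psi_phi p q k e R hmem g
    rcases y with x | x
    · exact h2 x
    · change psi p q k e R hmem (phiX p q k e x)⁻¹ = _
      rw [map_inv, h2, ← gval_inv]
      rfl

lemma stays_R (P : Submonoid (GG S J)) (hP : ∀ x, phiX p q k e x ∈ P) :
    ∀ w ∈ R, wval (phiX p q k e) w = 1 ∧
      ∀ g ∈ (P : Set (GG S J)), Stays (phiX p q k e) (P : Set (GG S J)) g w := by
  intro w hw
  rcases (hmem w).1 hw with ⟨x, rfl⟩ | ⟨u, v, h, rfl⟩
  · exact stays_rel hP (u := [x]) (v := [x]) rfl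
  · refine stays_rel hP ?_
    have := h.phi
    rw [List.map_map, List.map_map]
    have h1 : phiX p q k e ∘ e = phi p q k := by
      funext x
      simp [phiX]
    rw [h1]
    exact this

/-- Equality in the maximal group image. -/
lemma gval_iff (u v : List (X ⊕ X)) :
    gval R u = gval R v ↔ wval (phiX p q k e) u = wval (phiX p q k e) v := by
  constructor
  · intro h
    have hrel : ∀ g ∈ {g : FreeGroup X | ∃ w ∈ R, g = toFree w},
        FreeGroup.lift (phiX p q k e) g = 1 := by
      rintro g ⟨w, hw, rfl⟩
      have h1 : ∀ u : List (X ⊕ X), FreeGroup.lift (phiX p q k e) (toFree u) =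
          wval (phiX p q k e) u := by
        intro u
        induction u with
        | nil => rfl
        | cons y u ih =>
          rw [toFree_cons, map_mul, ih, wval_cons]
          congr 1
          rcases y with x | x <;> simp [toFree, lval]
      rw [h1]
      exact (stays_R p q k e R hmem ⊤ (fun x => trivial) w hw).1
    have h1 : ∀ u : List (X ⊕ X), PresentedGroup.toGroup (f := phiX p q k e) hrel (gval R u) =
        wval (phiX p q k e) u := by
      intro u
      change FreeGroup.lift (phiX p q k e) (toFree u) = _
      induction u with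
      | nil => rfl
      | cons y u ih =>
        rw [toFree_cons, map_mul, ih, wval_cons]
        congr 1
        rcases y with x | x <;> simp [toFree, lval]
    have h2 := congrArg (PresentedGroup.toGroup (f := phiX p q k e) hrel) h
    rwa [h1, h1] at h2
  · intro h
    rw [← psi_wval p q k e R hmem, ← psi_wval p q k e R hmem, h]

end Q25.IM
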