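import Mathlib
import Pool.Agent.Q25.IM.Main2

/-!
# Right units code the block equation
-/

namespace Q25.IM

open Multiplicative

variable {S J : Type} (p q : J → List S) (k : S) {X : Type} (e : Gen S J ≃ X)
  (R : List (List (X ⊕ X)))

/-- Elements of level zero in the submonoid. -/
lemma level_zero {g : GG S J} (hg : g ∈ Submonoid.closure (Set.range (phi p q k))) :
    ∃ n : ℕ, g.2 = ofAdd (n : ℤ) ∧ (n = 0 → ∃ L : List (Z J), g.1 = zprod p q k L) := by
  induction hg using Submonoid.closure_induction with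
  | mem x hx =>
    obtain ⟨x, rfl⟩ := hx
    cases x with
    | t => exact ⟨1, rfl, fun h => absurd h one_ne_zero⟩
    | a s c => exact ⟨1, rfl, fun h => absurd h one_ne_zero⟩
    | b s c => exact ⟨1, rfl, fun h => absurd h one_ne_zero⟩
    | z z => exact ⟨0, rfl, fun _ => ⟨[z], by simp [zprod, phi]⟩⟩
  | one => exact ⟨0, rfl, fun _ => ⟨[], rfl⟩⟩
  | mul x y _ _ hx hy =>
    obtain ⟨n, h1, h2⟩ := hx
    obtain ⟨m, h3, h4⟩ := hy
    refine ⟨n + m, ?_, fun h => ?_⟩
    · rw [Prod.snd_mul, h1, h3, ← ofAdd_add, Nat.cast_add]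
    · obtain ⟨L, hL⟩ := h2 (by omega)
      obtain ⟨L', hL'⟩ := h4 (by omega)
      exact ⟨L ++ L', by rw [Prod.fst_mul, hL, hL', zprod_append]⟩

/-- The positive word coding a queue word. -/
def hw {S J : Type} (w : List S) : List (Gen S J) :=
  w.map (fun s => .a s true) ++ [.b none true]

/-- The test word. -/
def tw {S J X : Type} (e : Gen S J ≃ X) (w : List S) : List (X ⊕ X) :=
  pw e (hw w) ++ List.replicate (w.length + 1) (Sum.inr (e .t))

lemma prod_hw (w : List S) : ((hw w).map (phi p q k)).prod =
    ((pos w, FreeGroup.of none), ofAdd ((w.length + 1 : ℕ) : ℤ)) := by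
  rw [hw, List.map_append, List.prod_append, prod_a, prod_sgn_true]
  simp only [phi, sgn, List.map_cons, List.map_nil, List.prod_cons, List.prod_nil, mul_one,
      Prod.mk_mul_mk, ← ofAdd_add, cond_true, one_mul]
  rfl

lemma inv_rep (n : ℕ) (x : X) :
    inv (List.replicate n (Sum.inl x)) = List.replicate n (Sum.inr x : X ⊕ X) := by
  simp [inv]

lemma wval_rep (n : ℕ) : wval (phiX p q k e) (List.replicate n (Sum.inr (e .t))) =
    (1, ofAdd (-(n : ℤ))) := by
  rw [← inv_rep, wval_inv]
  have : List.replicate n (Sum.inl (e .t) : X ⊕ X) = pw e (List.replicate n .t) := by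
    simp [pw]
  rw [this, wval_pw, prod_t, Prod.inv_mk, inv_one, ofAdd_neg]

lemma wval_tw (w : List S) : wval (phiX p q k e) (tw e w) = ((pos w, FreeGroup.of none), 1) := by
  rw [tw, wval_append, wval_pw, prod_hw, wval_rep, Prod.mk_mul_mk, mul_one, ← ofAdd_add,
    add_neg_cancel, ofAdd_zero]

lemma wval_z (L : List (Z J)) : wval (phiX p q k e) (pw e (L.map .z)) =
    (zprod p q k L, 1) := by
  rw [wval_pw]
  induction L with
  | nil => rfl
  | cons z L ih =>
    rw [List.map_cons, List.map_cons, List.prod_cons, ih, zprod_cons]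
    simp [phi]

variable (hmem : ∀ w, w ∈ R ↔ w ∈ relSet p q k e)

include hmem

lemma tw_ru_iff (w : List S) :
    RU (val R (tw e w)) ↔ ∃ js : List J, js.flatMap p ++ [k] = w ++ js.flatMap q := by
  rw [← code]
  have hG := good p q k e R hmem
  constructor
  · intro h
    have h1 := stays_of_ru (stays_R p q k e R hmem (Submonoid.closure (Set.range (phi p q k)))
      (fun x => Submonoid.subset_closure ⟨e.symm x, rfl⟩)) (Submonoid.one_mem _) h
    rw [wval_tw] at h1
    obtain ⟨n, h2, h3⟩ := level_zero p q k h1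
    have h4 : (n : ℤ) = 0 := (ofAdd.injective h2).symm
    obtain ⟨L, hL⟩ := h3 (by exact_mod_cast h4)
    exact ⟨L, hL.symm⟩
  · rintro ⟨L, hL⟩
    have h1 : val R (pw e (L.map .z ++ List.replicate (w.length + 1) .t)) =
        val R (pw e (hw w)) := by
      refine ru_eq hG (RU_pos hG _) (RU_pos hG _) ?_
      rw [gval_iff p q k e R hmem, pw_append, wval_append, wval_z, hL, wval_pw, prod_t, wval_pw,
        prod_hw]
      simp
    have h2 : val R (pw e (List.replicate (w.length + 1) .t)) *
        val R (List.replicate (w.length + 1) (Sum.inr (e .t))) = 1 := by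
      rw [← inv_rep]
      have : List.replicate (w.length + 1) (Sum.inl (e .t) : X ⊕ X) =
          pw e (List.replicate (w.length + 1) .t) := by
        simp [pw]
      rw [this, ← RU_iff]
      exact RU_pos hG _
    rw [tw, val_append, ← h1, pw_append, val_append, mul_assoc, h2, mul_one]
    exact RU_pos hG _

end Q25.IM
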