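import Mathlib
import Pool.Agent.Helper247.Univ
import Pool.Agent.Q25.IM.Main3
import Pool.Agent.Q25.IM.Comp

/-!
# Undecidability of the word problem
-/

namespace Q25.IM

open Multiplicative Turing Relation Pool.Agent.Helper247 Pool.Agent.Helper247.Queue

theorem prod_head_ne {Γ Λ : Type} [Inhabited Γ] [Inhabited Λ] (M : TM0.Machine Γ Λ)
    (y : Queue.Sym Γ Λ) : (Queue.prod M .kill y).head? ≠ some y := by
  rcases y with b | ⟨r, b⟩ | _ | _
  · simp [Queue.prod]
  · intro h
    simp only [Queue.prod] at h
    split at h <;> simp at h
  · simp [Queue.prod]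
  · simp [Queue.prod]

/-- The block equation describes reachability in a block queue system. -/
theorem block_iff {S : Type} (P : S → S → List S) (kill : S)
    (hP1 : ∀ x y, 2 ≤ (P x y).length ∨ P x y = [kill])
    (hP2 : ∀ y, (P kill y).head? ≠ some y) (w : List S) (hw : 2 ≤ w.length ∨ w = [kill]) :
    (∃ bs : List (S × S), bs.flatMap (fun b => [b.1, b.2]) ++ [kill] =
      w ++ bs.flatMap (fun b => P b.1 b.2)) ↔ QReach P w [kill] := by
  constructor
  · rintro ⟨bs, h⟩
    induction bs generalizing w with
    | nil =>
      simp only [List.flatMap_nil, List.nil_append, List.append_nil] at h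
      rw [← h]
    | cons b bs ih =>
      obtain ⟨x, y⟩ := b
      simp only [List.flatMap_cons, List.cons_append, List.nil_append] at h
      rcases hw with hw | rfl
      · match w, hw, h with
        | x' :: y' :: t, hw, h =>
          simp only [List.cons_append, List.cons.injEq] at h
          obtain ⟨rfl, rfl, h⟩ := h
          refine ReflTransGen.head (QStep.mk x y t) (ih (t ++ P x y) ?_ ?_)
          · rcases hP1 x y with h2 | h2
            · left
              rw [List.length_append]
              omega
            · rw [h2]
              cases t with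
              | nil => right; rfl
              | cons a t => left; simp
          · rw [h, List.append_assoc]
      · exfalso
        simp only [List.cons_append, List.nil_append, List.cons.injEq] at h
        obtain ⟨rfl, h⟩ := h
        have h3 := hP2 y
        rcases hP : P x y with _ | ⟨c, l⟩
        · have := hP1 x y
          rw [hP] at this
          simp at this
        · rw [hP] at h h3
          simp only [List.cons_append, List.cons.injEq] at h
          exact h3 (by rw [List.head?_cons, h.1])
  · intro h
    induction h using ReflTransGen.head_induction_on with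
    | refl => exact ⟨[], rfl⟩
    | head h1 _ ih =>
      cases h1 with
      | mk x y t =>
        have h2 : 2 ≤ (t ++ P x y).length ∨ t ++ P x y = [kill] := by
          rcases hP1 x y with h2 | h2
          · left
            rw [List.length_append]
            omega
          · rw [h2]
            cases t with
            | nil => right; rfl
            | cons a t => left; simp
        obtain ⟨bs, hbs⟩ := ih h2
        refine ⟨(x, y) :: bs, ?_⟩
        simp only [List.flatMap_cons, List.cons_append, List.nil_append]
        rw [hbs]
        simp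

/-- Decidability of the word problem of the maximal group image. -/
theorem group_dec {S J : Type} [Finite S] [Finite J] (p q : J → List S) (k : S) {N : ℕ}
    (e : Gen S J ≃ Fin N) (R : List (List (Fin N ⊕ Fin N)))
    (hmem : ∀ w, w ∈ R ↔ w ∈ relSet p q k e) :
    ComputablePred (fun uv : List (Fin N ⊕ Fin N) × List (Fin N ⊕ Fin N) =>
      gval R uv.1 = gval R uv.2) := by
  obtain ⟨m1, ⟨e1⟩⟩ := Finite.exists_equiv_fin S
  obtain ⟨m2, ⟨e2⟩⟩ := Finite.exists_equiv_fin (Option J)
  let F1 : GG S J →* FreeGroup (Fin m1) := (FreeGroup.freeGroupCongr e1).toMonoidHom.comp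
    ((MonoidHom.fst _ _).comp (MonoidHom.fst _ _))
  let F2 : GG S J →* FreeGroup (Fin m2) := (FreeGroup.freeGroupCongr e2).toMonoidHom.comp
    ((MonoidHom.snd _ _).comp (MonoidHom.fst _ _))
  let F3 : GG S J →* FreeGroup (Fin 1) := (zpowersHom _ (FreeGroup.of 0)).comp (MonoidHom.snd _ _)
  have hw : ∀ {m : ℕ} (F : GG S J →* FreeGroup (Fin m)) (u : List (Fin N ⊕ Fin N)),
      F (wval (phiX p q k e) u) = (u.map fun y => F (lval (phiX p q k e) y)).prod := by
    intro m F u
    rw [wval, map_list_prod, List.map_map]
    rfl
  have h1 := free_dec (fun y : Fin N ⊕ Fin N => F1 (lval (phiX p q k e) y))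
  have h2 := free_dec (fun y : Fin N ⊕ Fin N => F2 (lval (phiX p q k e) y))
  have h3 := free_dec (fun y : Fin N ⊕ Fin N => F3 (lval (phiX p q k e) y))
  refine ((h1.and (h2.and h3)).of_eq fun uv => ?_).computablePred
  rw [gval_iff p q k e R hmem, ← hw F1, ← hw F1, ← hw F2, ← hw F2, ← hw F3, ← hw F3]
  constructor
  · rintro ⟨ha, hb, hc⟩
    have hc' : (wval (phiX p q k e) uv.1).2 = (wval (phiX p q k e) uv.2).2 := by
      have hinv : ∀ x : Multiplicative ℤ, FreeGroup.lift (fun _ : Fin 1 => ofAdd (1 : ℤ))
          (zpowersHom (FreeGroup (Fin 1)) (FreeGroup.of 0) x) = x := by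
        intro x
        rw [zpowersHom_apply, map_zpow, FreeGroup.lift_apply_of, ← ofAdd_zsmul, smul_eq_mul,
          mul_one, ofAdd_toAdd]
      have := congrArg (FreeGroup.lift (fun _ : Fin 1 => ofAdd (1 : ℤ))) hc
      exact (hinv _).symm.trans (this.trans (hinv _))
    exact Prod.ext (Prod.ext ((FreeGroup.freeGroupCongr e1).injective ha)
      ((FreeGroup.freeGroupCongr e2).injective hb)) hc'
  · intro h
    rw [h]
    exact ⟨rfl, rfl, rfl⟩

/-- The formal inverse is computable. -/
theorem primrec_inv {N : ℕ} :
    Primrec (inv : List (Fin N ⊕ Fin N) → List (Fin N ⊕ Fin N)) := by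
  unfold inv
  exact Primrec.list_reverse.comp (Primrec.list_map Primrec.id
    ((Primrec.dom_finite (Sum.swap : Fin N ⊕ Fin N → Fin N ⊕ Fin N)).comp Primrec.snd))

/-- Main theorem. -/
theorem main : ∃ (N : ℕ) (R : List (List (Fin N ⊕ Fin N))),
    EUnitary (InvMon R) ∧ RightReversible (prefixMonoid R) ∧
    ComputablePred (fun uv : List (Fin N ⊕ Fin N) × List (Fin N ⊕ Fin N) =>
      gval R uv.1 = gval R uv.2) ∧
    ¬ ComputablePred (fun uv : List (Fin N ⊕ Fin N) × List (Fin N ⊕ Fin N) =>
      val R uv.1 = val R uv.2) := by
  classical
  obtain ⟨Λ, i1, i2, M, hM⟩ := Univ.exists_machine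
  let S := Queue.Sym (TM2to1.Γ' PartrecToTM2.K' (fun _ => PartrecToTM2.Γ')) Λ
  have fK : Finite PartrecToTM2.K' := by
    refine Finite.of_injective (fun k : PartrecToTM2.K' => match k with
      | .main => (0 : Fin 4)
      | .rev => 1
      | .aux => 2
      | .stack => 3) ?_
    intro a b h
    cases a <;> cases b <;> simp_all
  have fG : Finite (TM2to1.Γ' PartrecToTM2.K' (fun _ => PartrecToTM2.Γ')) :=
    inferInstanceAs (Finite (Bool × (PartrecToTM2.K' → Option PartrecToTM2.Γ')))
  have fS : Finite S := inferInstanceAs (Finite (Queue.Sym _ _))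
  let P : S → S → List S := Queue.prod M
  have hP1 : ∀ x y, 2 ≤ (P x y).length ∨ P x y = [Queue.Sym.kill] := prod_length M
  have hP2 : ∀ y, (P Queue.Sym.kill y).head? ≠ some y := prod_head_ne M
  let tape : ℕ → List (TM2to1.Γ' PartrecToTM2.K' (fun _ => PartrecToTM2.Γ')) := fun n =>
    Univ.sym true .cons :: (PartrecToTM2.trNat n).reverse.map (Univ.sym false)
  let p : S × S → List S := fun b => [b.1, b.2]
  let q : S × S → List S := fun b => P b.1 b.2
  obtain ⟨N, ⟨e⟩⟩ := Finite.exists_equiv_fin (Gen S (S × S))
  obtain ⟨R, hR⟩ : ∃ R : List (List (Fin N ⊕ Fin N)),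
      ∀ w, w ∈ R ↔ w ∈ relSet p q Queue.Sym.kill e :=
    ⟨(relSet_finite p q Queue.Sym.kill e).toFinset.toList, fun w => by simp⟩
  have hG := good p q Queue.Sym.kill e R hR
  refine ⟨N, R, eUnitary hG, rightReversible hG, group_dec p q Queue.Sym.kill e R hR,
    fun hC => ?_⟩
  let w0 : ℕ → List S := fun n => initWord (tape n)
  have hkey : ∀ n, (Univ.u n).Dom ↔
      val R (tw e (w0 n) ++ inv (tw e (w0 n))) = val R [] := by
    intro n
    have hrep : Rep (TM0.init (tape n) : TM0.Cfg _ Λ) (initWord (tape n)) :=
      rep_init (tape n) (by simp [tape])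
    rw [← hM n, ← rep_halts M hrep,
      ← block_iff P Queue.Sym.kill hP1 hP2 _ (Or.inl (initWord_length _)), val_append, val_nil,
      ← RU_iff, tw_ru_iff p q Queue.Sym.kill e R hR]
  -- computability of the reduction
  have hcomp : Computable (fun n => tw e (w0 n)) := by
    let c : S → ℕ := fun s => Encodable.encode (Sum.inl (e (.a s true)) : Fin N ⊕ Fin N)
    have hd := Univ.digits_computable (fun a => c (Queue.Sym.cell (Univ.sym false a)))
    have hw : Computable (fun n => (w0 n).map c) := by
      have : (fun n => (w0 n).map c) = fun n =>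
          (if (((PartrecToTM2.trNat n).map
              (fun a => c (Queue.Sym.cell (Univ.sym false a)))).length + 1) % 2 = 0 then
            [c Queue.Sym.mark, c (Queue.Sym.head default (Univ.sym true .cons))]
          else [c Queue.Sym.mark, c (Queue.Sym.cell default),
            c (Queue.Sym.head default (Univ.sym true .cons))]) ++
          ((PartrecToTM2.trNat n).map
            (fun a => c (Queue.Sym.cell (Univ.sym false a)))).reverse := by
        funext n
        simp only [w0, tape, initWord, List.length_cons, List.length_map, List.length_reverse]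
        split_ifs <;> simp [Function.comp_def]
      rw [this]
      have hlen := Computable.list_length.comp hd
      have hmod : Computable (fun n : ℕ => ((((PartrecToTM2.trNat n).map
              (fun a => c (Queue.Sym.cell (Univ.sym false a)))).length + 1) % 2)) :=
        (Primrec.nat_mod.comp (Primrec.succ.comp Primrec.id) (Primrec.const 2)).to_comp.comp hlen
      have hite : Computable (fun n : ℕ => (if (((PartrecToTM2.trNat n).map
              (fun a => c (Queue.Sym.cell (Univ.sym false a)))).length + 1) % 2 = 0 then
            [c Queue.Sym.mark, c (Queue.Sym.head default (Univ.sym true .cons))]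
          else [c Queue.Sym.mark, c (Queue.Sym.cell default),
            c (Queue.Sym.head default (Univ.sym true .cons))])) := by
        have hp : Primrec (fun m : ℕ => if m = 0 then
            [c Queue.Sym.mark, c (Queue.Sym.head default (Univ.sym true .cons))]
          else [c Queue.Sym.mark, c (Queue.Sym.cell default),
            c (Queue.Sym.head default (Univ.sym true .cons))]) :=
          Primrec.ite (PrimrecRel.comp Primrec.eq Primrec.id (Primrec.const 0))
            (Primrec.const _) (Primrec.const _)
        exact hp.to_comp.comp hmod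
      exact Computable.list_append.comp hite (Computable.list_reverse.comp hd)
    let y0 : Fin N ⊕ Fin N := Sum.inl (e .t)
    let yb : Fin N ⊕ Fin N := Sum.inl (e (.b none true))
    let yt : Fin N ⊕ Fin N := Sum.inr (e .t)
    have hdec : Primrec (fun l : List ℕ =>
        l.map (fun m => (Encodable.decode (α := Fin N ⊕ Fin N) m).getD y0)) :=
      Primrec.list_map Primrec.id (Primrec.option_getD.comp (Primrec.decode.comp Primrec.snd)
        (Primrec.const y0))
    have hrep : Primrec (fun l : List ℕ => l.map (fun _ => yt)) :=
      Primrec.list_map Primrec.id (Primrec.const yt)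
    have htot : Primrec (fun l : List ℕ =>
        l.map (fun m => (Encodable.decode (α := Fin N ⊕ Fin N) m).getD y0) ++ [yb] ++
          (l.map (fun _ => yt) ++ [yt])) :=
      Primrec.list_append.comp (Primrec.list_append.comp hdec (Primrec.const [yb]))
        (Primrec.list_append.comp hrep (Primrec.const [yt]))
    refine (htot.to_comp.comp hw).of_eq fun n => ?_
    rw [List.map_map, List.map_map]
    have h1 : (fun m => (Encodable.decode (α := Fin N ⊕ Fin N) m).getD y0) ∘ c =
        fun s => Sum.inl (e (.a s true)) := by
      funext s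
      change (Encodable.decode (Encodable.encode
        (Sum.inl (e (.a s true)) : Fin N ⊕ Fin N))).getD y0 = _
      rw [Encodable.encodek]
      rfl
    have h2 : List.map ((fun _ => yt) ∘ c) (w0 n) ++ [yt] =
        List.replicate ((w0 n).length + 1) yt := by
      change List.map (fun _ => yt) (w0 n) ++ [yt] = _
      rw [List.map_const', ← List.replicate_succ']
    rw [h1, h2]
    simp [tw, pw, IM.hw, yb, yt, Function.comp_def]
  apply Univ.u_not_computable
  refine ComputablePred.computable_of_manyOneReducible (p := fun n => (Univ.u n).Dom)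
    (q := fun uv : List (Fin N ⊕ Fin N) × List (Fin N ⊕ Fin N) => val R uv.1 = val R uv.2)
    ⟨fun n => (tw e (w0 n) ++ inv (tw e (w0 n)), []), ?_, fun n => hkey n⟩ hC
  exact Computable.pair (Computable.list_append.comp hcomp (primrec_inv.to_comp.comp hcomp))
    (Computable.const [])

end Q25.IM
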